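import Pool.Agent.H36.BP.OrdDefs

/-!
# BPB Defs: the metric on an arbitrary open part, limit curves with bubbling

`MD` is `MetricData` without the field `hur` for `k ≥ 1`.  For arbitrary open surfaces the limit of the rescaled discs may meet the
boundary at the points of a closed discrete set (the bubbling points).
-/

set_option autoImplicit false

namespace Pool.Agent.H36.BPB

open Filter Topology Metric

export Pool.Agent.H36.BP (EN Sub fs wd Curve mt OrdTwo)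

variable {N : ℕ}

/-- `MetricData` without the condition at the bubbling points. -/
structure MD (K B : Set (EN N)) (G : EN N → EN N → ℝ) (ρ : EN N → ℝ) (M : ℕ) (c₀ C : ℝ) : Prop where
  ne : ∀ x ∈ K, x ≠ 0
  smul : ∀ x ∈ K, ∀ c : ℂ, c ≠ 0 → c • x ∈ K
  c₀_pos : 0 < c₀
  C_nonneg : 0 ≤ C
  nonneg : ∀ x ∈ K, ∀ v, 0 ≤ G x v
  usc : ∀ x ∈ K, ∀ v, ∀ a : ℝ, G x v < a → ∀ᶠ p in 𝓝 (x, v), p.1 ∈ K → G p.1 p.2 < a
  inv : ∀ x ∈ K, ∀ v (c a : ℂ), c ≠ 0 → G (c • x) (c • v + a • x) = G x v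
  hom : ∀ x ∈ K, ∀ v (c : ℂ), G x (c • v) = ‖c‖ * G x v
  zero : ∀ (F : ℂ → EN N) (z₀ : ℂ), AnalyticAt ℂ F z₀ → (∀ᶠ z in 𝓝 z₀, F z ∈ K ∧ F z ∈ B) → mt G F z₀ = 0
  sub : ∀ (F : ℂ → EN N) (z₀ : ℂ), AnalyticAt ℂ F z₀ → (∀ᶠ z in 𝓝 z₀, F z ∈ K) → 0 < mt G F z₀ →
    Sub (fun z => mt G F z * ‖F z‖ ^ (-c₀)) z₀ (-(C * mt G F z₀ ^ 2))
  ρ_nonneg : ∀ x ∈ K, 0 ≤ ρ x
  lower : ∀ x ∈ K, ∀ v, ρ x ^ M * fs x v ≤ G x v
  ρ_zero : ∀ (F : ℂ → EN N) (z₀ : ℂ), AnalyticAt ℂ F z₀ → (∀ᶠ z in 𝓝 z₀, F z ∈ K) →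
    (∃ᶠ z in 𝓝[≠] z₀, ρ (F z) = 0) → ∀ᶠ z in 𝓝 z₀, F z ∈ B
  rel_open : ∀ x ∈ K, ∀ᶠ y in 𝓝 x, y ∈ closure K → y ∈ K
  hur : ∀ (l : Filter ℕ), l.NeBot → ∀ (F : ℕ → ℂ → EN N) (H : ℂ → EN N) (z₀ : ℂ) (s : ℝ), 0 < s →
    (∀ᶠ n in l, Curve K (Metric.ball z₀ s) (F n)) → DifferentiableOn ℂ H (Metric.ball z₀ s) →
    TendstoLocallyUniformlyOn F H l (Metric.ball z₀ s) → H z₀ ≠ 0 → H z₀ ∉ K → ∀ᶠ z in 𝓝 z₀, H z ∉ K
  lim : ∀ (l : Filter ℕ), l.NeBot → ∀ (F : ℕ → ℂ → EN N) (H : ℂ → EN N) (z₀ : ℂ) (s : ℝ), 0 < s →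
    (∀ᶠ n in l, Curve K (Metric.ball z₀ s) (F n)) → TendstoLocallyUniformlyOn F H l (Metric.ball z₀ s) → H z₀ ≠ 0 →
    (∀ z ∈ Metric.ball z₀ s, H z ∉ K) → ∀ ε : ℝ, 0 < ε → ∀ᶠ n in l, mt G (F n) z₀ < ε

/-- Near `z₀` the curves `[F n]` in projective space converge uniformly to `[H]`, with normalised lifts. -/
def ConvAt {V : Type} [NormedAddCommGroup V] [NormedSpace ℂ V] (l : Filter ℕ) (F : ℕ → ℂ → V) (H : ℂ → V) (z₀ : ℂ) : Prop :=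
  ∃ s : ℝ, 0 < s ∧ ∃ φ : ℕ → ℂ → ℂ,
    (∀ᶠ n in l, DifferentiableOn ℂ (φ n) (ball z₀ s) ∧ ∀ z ∈ ball z₀ s, φ n z ≠ 0) ∧
    TendstoLocallyUniformlyOn (fun n z => φ n z • F n z) H l (ball z₀ s)

/-- `[H]` is the limit of the curves `[F n]` in `K`, which are defined on larger and larger discs, in `0` and outside a closed
discrete set. -/
structure IsLimit {V : Type} [NormedAddCommGroup V] [NormedSpace ℂ V] (K : Set V) (l : Filter ℕ) (F : ℕ → ℂ → V) (H : ℂ → V) :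
    Prop where
  neBot : l.NeBot
  le_atTop : l ≤ atTop
  diff : ∀ n : ℕ, DifferentiableOn ℂ (F n) (ball 0 (n + 1))
  mem : ∀ n : ℕ, ∀ z ∈ ball (0 : ℂ) (n + 1), F n z ∈ K
  hol : Differentiable ℂ H
  ne : ∀ z, H z ≠ 0
  zero : ConvAt l F H 0
  conv : ∀ z₀ : ℂ, ∀ᶠ z in 𝓝[≠] z₀, ConvAt l F H z

/-- All limits of order at most two of discs in `K`, which are not constant as maps into projective space, lie in `B`. -/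
def LimMod2 {V : Type} [NormedAddCommGroup V] [NormedSpace ℂ V] (K B : Set V) : Prop :=
  ∀ (l : Filter ℕ) (F : ℕ → ℂ → V) (H : ℂ → V), IsLimit K l F H → (∀ z, H z ∈ closure K) → H 0 ∈ K →
    (∀ z, ConvAt l F H z → H z ∈ K) → (∃ z w, ∀ c : ℂ, H z ≠ c • H w) → OrdTwo H → ∀ z, H z ∈ K → H z ∈ B

end Pool.Agent.H36.BPB
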