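import Pool.Agent.H36.BPB.MtA
import Pool.Agent.H17.Montel
import Pool.Agent.H17.GlobalLift

/-!
# BPB Lim: the limit curve for an arbitrary open part

As in `BP/Lim.lean`.  At a point where the normalised lifts `F_n^R` tend to a function with a zero (a bubbling point) nothing is known; these points are isolated.  So the set
`A = {z : H w ∉ K for all w ≠ z near z}` is open and closed (a punctured disc is connected).
-/

set_option autoImplicit false

namespace Pool.Agent.H36.BPB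

open Filter Topology Metric
open Pool.Agent.H36.BP

variable {N : ℕ}

variable {K B : Set (EN N)} {G : EN N → EN N → ℝ} {ρ : EN N → ℝ} {M : ℕ} {c₀ C : ℝ}

/-- The coordinate `i`. -/
private noncomputable def Lim_pr (i : Fin (N + 1)) : EN N →L[ℂ] ℂ := EuclideanSpace.proj i

private lemma Lim_pr_apply (i : Fin (N + 1)) (v : EN N) : Lim_pr i v = v i := rfl

private lemma Lim_exists_coord {w : EN N} (hw : w ≠ 0) : ∃ j, w j ≠ 0 := by
  by_contra h
  push Not at h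
  apply hw
  ext j
  exact h j

private lemma Lim_prop {v w : EN N} (hw : w ≠ 0) (h : ∀ i j, v i * w j = v j * w i) :
    ∃ c : ℂ, v = c • w := by
  obtain ⟨j, hj⟩ := Lim_exists_coord hw
  refine ⟨v j / w j, ?_⟩
  ext i
  rw [PiLp.smul_apply, smul_eq_mul, div_mul_eq_mul_div, eq_div_iff hj]
  exact h i j

private lemma Lim_cont_minor {X : Type} [TopologicalSpace X] {f g : X → EN N} {x : X}
    (hf : ContinuousAt f x) (hg : ContinuousAt g x) (i j : Fin (N + 1)) :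
    ContinuousAt (fun y => f y i * g y j - f y j * g y i) x := by
  have hc : ∀ (f : X → EN N), ContinuousAt f x → ∀ i, ContinuousAt (fun y => f y i) x := by
    intro f hf i
    exact (Lim_pr i).continuous.continuousAt.comp hf
  exact ((hc f hf i).mul (hc g hg j)).sub ((hc f hf j).mul (hc g hg i))

/-- Gluing of local lifts. -/
private lemma Lim_glue (Hs : ℕ → ℂ → EN N)
    (hd : ∀ R : ℕ, DifferentiableOn ℂ (Hs R) (ball 0 (R + 1))) (h0 : ∀ R, Hs R 0 ≠ 0)
    (hp : ∀ (R S : ℕ) (z : ℂ), z ∈ ball (0 : ℂ) (R + 1) → z ∈ ball (0 : ℂ) (S + 1) →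
      ∀ i j, Hs R z i * Hs S z j = Hs R z j * Hs S z i) :
    ∃ H : ℂ → EN N, Differentiable ℂ H ∧ (∀ z, H z ≠ 0) ∧
      ∀ (R : ℕ), ∀ z₀ ∈ ball (0 : ℂ) (R + 1), ∃ (k : ℕ) (u : ℂ → ℂ), AnalyticAt ℂ u z₀ ∧
        u z₀ ≠ 0 ∧ ∀ᶠ w in 𝓝 z₀, Hs R w = (w - z₀) ^ k • (u w • H w) := by
  classical
  -- local factorisation
  have hfac : ∀ (R : ℕ), ∀ z₀ ∈ ball (0 : ℂ) (R + 1), ∃ (k : ℕ) (φ : ℂ → EN N),
      AnalyticAt ℂ φ z₀ ∧ φ z₀ ≠ 0 ∧ ∀ᶠ w in 𝓝 z₀, Hs R w = (w - z₀) ^ k • φ w := by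
    intro R z₀ hz₀
    have ha : AnalyticAt ℂ (Hs R) z₀ := (hd R).analyticAt (isOpen_ball.mem_nhds hz₀)
    rw [ha.exists_eventuallyEq_pow_smul_nonzero_iff]
    intro hcon
    have hon : AnalyticOnNhd ℂ (Hs R) (ball 0 (R + 1)) := fun w hw =>
      (hd R).analyticAt (isOpen_ball.mem_nhds hw)
    have h1 := hon.eqOn_zero_of_preconnected_of_eventuallyEq_zero
      (convex_ball (0 : ℂ) (R + 1)).isPreconnected hz₀ hcon
    exact h0 R (h1 (mem_ball_self (by positivity)))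
  have hmem : ∀ z : ℂ, z ∈ ball (0 : ℂ) ((⌈‖z‖⌉₊ : ℕ) + 1) := by
    intro z
    rw [mem_ball_zero_iff]
    have := Nat.le_ceil ‖z‖
    linarith
  choose k φ hφa hφ0 hφe using fun z : ℂ => hfac ⌈‖z‖⌉₊ z (hmem z)
  -- any local factor is proportional to φ
  have hcmp : ∀ (R : ℕ), ∀ z₀ ∈ ball (0 : ℂ) (R + 1), ∀ (m : ℕ) (ψ : ℂ → EN N),
      AnalyticAt ℂ ψ z₀ → (∀ᶠ w in 𝓝 z₀, Hs R w = (w - z₀) ^ m • ψ w) →
      ∀ᶠ z in 𝓝 z₀, ∀ i j, φ z z i * ψ z j = φ z z j * ψ z i := by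
    intro R z₀ hz₀ m ψ hψa hψe
    filter_upwards [hψe.eventually_nhds, hψa.eventually_analyticAt,
      isOpen_ball.mem_nhds hz₀] with z h1 h2 h3 i j
    -- near z
    have h4 : ∀ᶠ w in 𝓝[≠] z, φ z w i * ψ w j - φ z w j * ψ w i = 0 := by
      have hne0 : ∀ᶠ w in 𝓝[≠] z, w ≠ z₀ := by
        by_cases hz : z = z₀
        · rw [hz]
          exact self_mem_nhdsWithin
        · exact (eventually_ne_nhds hz).filter_mono nhdsWithin_le_nhds
      filter_upwards [h1.filter_mono nhdsWithin_le_nhds, hne0, self_mem_nhdsWithin,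
        (hφe z).filter_mono nhdsWithin_le_nhds,
        nhdsWithin_le_nhds (isOpen_ball.mem_nhds (hmem z)),
        nhdsWithin_le_nhds (isOpen_ball.mem_nhds h3)] with w a1 a2 a3 a4 a5 a6
      have h5 := hp ⌈‖z‖⌉₊ R w a5 a6 i j
      rw [a4, a1] at h5
      simp only [PiLp.smul_apply, smul_eq_mul] at h5
      have h6 : (w - z) ^ k z ≠ 0 := pow_ne_zero _ (sub_ne_zero.2 a3)
      have h7 : (w - z₀) ^ m ≠ 0 := pow_ne_zero _ (sub_ne_zero.2 a2)
      have h8 : (w - z) ^ k z * (w - z₀) ^ m * (φ z w i * ψ w j - φ z w j * ψ w i) = 0 := by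
        linear_combination h5
      rcases mul_eq_zero.1 h8 with h | h
      · exact absurd h (mul_ne_zero h6 h7)
      · exact h
    have h5 : Tendsto (fun w => φ z w i * ψ w j - φ z w j * ψ w i) (𝓝[≠] z)
        (𝓝 (φ z z i * ψ z j - φ z z j * ψ z i)) :=
      ((Lim_cont_minor (hφa z).continuousAt h2.continuousAt i j).tendsto).mono_left
        nhdsWithin_le_nhds
    have h6 : Tendsto (fun w => φ z w i * ψ w j - φ z w j * ψ w i) (𝓝[≠] z) (𝓝 0) :=
      (tendsto_congr' h4).2 tendsto_const_nhds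
    exact sub_eq_zero.1 (tendsto_nhds_unique h5 h6)
  have hofne : ∀ v : EN N, v ≠ 0 → v.ofLp ≠ 0 := by
    intro v hv h
    apply hv
    ext j
    exact congrFun h j
  set f : ℂ → Pool.Agent.H17.PN N := fun z => Projectivization.mk ℂ (φ z z).ofLp
    (hofne _ (hφ0 z)) with hf
  have hfhol : Pool.Agent.H17.HolomorphicInto f Set.univ := by
    intro z₀ _
    refine ⟨fun w => (φ z₀ w).ofLp, ?_, ?_⟩
    · rw [analyticAt_pi_iff]
      intro j
      exact ((Lim_pr j).analyticAt _).comp (hφa z₀)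
    · filter_upwards [hcmp ⌈‖z₀‖⌉₊ z₀ (hmem z₀) (k z₀) (φ z₀) (hφa z₀) (hφe z₀),
        (hφa z₀).continuousAt.eventually_ne (hφ0 z₀)] with z h1 h2
      refine ⟨hofne _ h2, ?_⟩
      obtain ⟨c, hc⟩ := Lim_prop h2 h1
      rw [hf, Projectivization.mk_eq_mk_iff']
      exact ⟨c, by rw [hc]; rfl⟩
  obtain ⟨x, hx⟩ := Pool.Agent.H17.exists_global_lift hfhol
  refine ⟨fun z => WithLp.toLp 2 (fun j => (x j : ℂ → ℂ) z), ?_, ?_, ?_⟩
  · have h1 : Differentiable ℂ (fun z => (fun j => (x j : ℂ → ℂ) z)) :=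
      differentiable_pi.2 fun j => (x j).diff
    exact (PiLp.continuousLinearEquiv 2 ℂ (fun _ : Fin (N + 1) => ℂ)).symm.differentiable.comp h1
  · intro z h
    obtain ⟨h1, _⟩ := hx z
    apply h1
    funext j
    exact congrArg (fun v : EN N => v j) h
  · intro R z₀ hz₀
    obtain ⟨m, ψ, hψa, hψ0, hψe⟩ := hfac R z₀ hz₀
    have hH : ∀ z, ∀ i j, φ z z i * (x j : ℂ → ℂ) z = φ z z j * (x i : ℂ → ℂ) z := by
      intro z i j
      obtain ⟨h1, h2⟩ := hx z
      obtain ⟨c, hc, h3⟩ := Pool.Agent.H17.mk_eq_mk_cross h2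
      have e1 : φ z z i = c * (x i : ℂ → ℂ) z := h3 i
      have e2 : φ z z j = c * (x j : ℂ → ℂ) z := h3 j
      rw [e1, e2]
      ring
    have hprop : ∀ᶠ z in 𝓝 z₀, ∀ i j, ψ z i * (x j : ℂ → ℂ) z = ψ z j * (x i : ℂ → ℂ) z := by
      filter_upwards [hcmp R z₀ hz₀ m ψ hψa hψe] with z h1 i j
      obtain ⟨l, hl⟩ := Lim_exists_coord (hφ0 z)
      have e1 := h1 l i
      have e2 := h1 l j
      have e3 := hH z l i
      have e4 := hH z l j
      have h5 : (φ z z l) * (φ z z l) * (ψ z i * (x j : ℂ → ℂ) z) =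
          (φ z z l) * (φ z z l) * (ψ z j * (x i : ℂ → ℂ) z) := by
        linear_combination (φ z z l * (x j : ℂ → ℂ) z) * e1 - (φ z z l * (x i : ℂ → ℂ) z) * e2 +
          (φ z z i * ψ z l) * e4 - (φ z z j * ψ z l) * e3
      exact mul_left_cancel₀ (mul_ne_zero hl hl) h5
    obtain ⟨l, hl⟩ : ∃ l, (x l : ℂ → ℂ) z₀ ≠ 0 := by
      obtain ⟨h1, _⟩ := hx z₀
      by_contra hcon
      push Not at hcon
      exact h1 (funext hcon)
    have hψl : AnalyticAt ℂ (fun z => ψ z l) z₀ :=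
      ((Lim_pr l).analyticAt _).comp hψa
    have hloc : ∀ᶠ w in 𝓝 z₀, ψ w = (ψ w l / (x l : ℂ → ℂ) w) •
        (WithLp.toLp 2 (fun j => (x j : ℂ → ℂ) w) : EN N) := by
      filter_upwards [hprop, (x l).diff.continuous.continuousAt.eventually_ne hl] with w h1 h2
      ext i
      rw [PiLp.smul_apply, smul_eq_mul, div_mul_eq_mul_div, eq_div_iff h2]
      exact h1 i l
    refine ⟨m, fun w => ψ w l / (x l : ℂ → ℂ) w, hψl.div ((x l).analyticAt z₀) hl, ?_, ?_⟩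
    · intro h
      apply hψ0
      rw [hloc.self_of_nhds]
      have h' : ψ z₀ l / (x l : ℂ → ℂ) z₀ = 0 := h
      rw [h', zero_smul]
    · filter_upwards [hψe, hloc] with w h1 h2
      rw [h1]
      exact congrArg _ h2


private theorem Lim_preconn (z₀ : ℂ) (ρ : ℝ) : IsPreconnected (ball z₀ ρ \ {z₀}) := by
  have h1 : IsPreconnected (Set.Ioo (0 : ℝ) ρ ×ˢ (Set.univ : Set ℝ)) := isPreconnected_Ioo.prod isPreconnected_univ
  have h2 := h1.image (fun p : ℝ × ℝ => z₀ + (p.1 : ℂ) * Complex.exp (p.2 * Complex.I))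
    (by fun_prop : Continuous fun p : ℝ × ℝ => z₀ + (p.1 : ℂ) * Complex.exp (p.2 * Complex.I)).continuousOn
  convert h2 using 1
  ext z
  constructor
  · rintro ⟨hz, hne⟩
    refine ⟨(‖z - z₀‖, Complex.arg (z - z₀)), ⟨⟨?_, ?_⟩, Set.mem_univ _⟩, ?_⟩
    · exact norm_pos_iff.2 (sub_ne_zero.2 hne)
    · simpa [dist_eq_norm] using hz
    · simp only
      rw [Complex.norm_mul_exp_arg_mul_I]
      ring
  · rintro ⟨⟨s, t⟩, ⟨⟨h3, h4⟩, _⟩, rfl⟩
    have h5 : ‖(s : ℂ) * Complex.exp (t * Complex.I)‖ = s := by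
      rw [norm_mul, Complex.norm_exp_ofReal_mul_I, mul_one, Complex.norm_real, Real.norm_of_nonneg h3.le]
    refine ⟨?_, ?_⟩
    · simp only [mem_ball, dist_eq_norm, add_sub_cancel_left]
      rw [h5]
      exact h4
    · intro h6
      have h7 : (s : ℂ) * Complex.exp (t * Complex.I) = 0 := by
        simpa using h6
      rw [h7, norm_zero] at h5
      simp only at h3
      linarith

/-- the limit curve, with the growth -/
theorem limit_curveB (hM : MD K B G ρ M c₀ C) (F : ℕ → ℂ → EN N) (hF : ∀ n : ℕ, Curve K (ball 0 (n + 1)) (F n))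
    (h0 : ∀ n, mt G (F n) 0 = 1) (c' : ℕ → ℝ) (hc' : ∀ R, 1 ≤ R → 0 < c' R)
    (hchar : ∀ R : ℕ, 1 ≤ R → ∀ n, R ≤ n → ∃ g : ℂ → ℂ, Differentiable ℂ g ∧
      (∀ z ∈ ball (0 : ℂ) R, ‖Complex.exp (g z) • F n z‖ ≤ 1) ∧ c' R ≤ ‖Complex.exp (g 0) • F n 0‖) :
    ∃ (l : Filter ℕ) (H : ℂ → EN N), IsLimit K l F H ∧ (∀ z, H z ∈ closure K) ∧ H 0 ∈ K ∧ (∀ z, ConvAt l F H z → H z ∈ K) ∧
      1 ≤ mt G H 0 ∧ ∀ R : ℕ, 1 ≤ R → ∃ HR : ℂ → EN N, DifferentiableOn ℂ HR (ball 0 R) ∧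
      (∀ z ∈ ball (0 : ℂ) R, ‖HR z‖ ≤ 1) ∧ c' R ≤ ‖HR 0‖ ∧ ∀ z ∈ ball (0 : ℂ) R, HR z = 0 ∨ ∃ k : ℂ, k ≠ 0 ∧ H z = k • HR z := by
  classical
  set 𝒰 : Ultrafilter ℕ := hyperfilter ℕ with h𝒰
  have h𝒰top : (𝒰 : Filter ℕ) ≤ atTop := by
    rw [← Nat.cofinite_eq_atTop]
    exact hyperfilter_le_cofinite
  -- the normalised curves
  set c : ℕ → ℝ := fun R => c' (R + 1) with hcdef
  have hc : ∀ R, 0 < c R := fun R => hc' (R + 1) (by omega)
  have hch : ∀ R : ℕ, ∃ g : ℕ → ℂ → ℂ, ∀ n, R + 1 ≤ n → Differentiable ℂ (g n) ∧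
      (∀ z ∈ ball (0 : ℂ) (R + 1), ‖Complex.exp (g n z) • F n z‖ ≤ 1) ∧
      c R ≤ ‖Complex.exp (g n 0) • F n 0‖ := by
    intro R
    have h1 := hchar (R + 1) (by omega)
    refine ⟨fun n => if h : R + 1 ≤ n then (h1 n h).choose else 0, fun n hn => ?_⟩
    have h2 := (h1 n hn).choose_spec
    simp only [hn, dite_true]
    refine ⟨h2.1, fun z hz => h2.2.1 z ?_, h2.2.2⟩
    push_cast
    exact hz
  choose g hg using hch
  set Fr : ℕ → ℕ → ℂ → EN N := fun R n z => Complex.exp (g R n z) • F n z with hFr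
  have hFrK : ∀ R n : ℕ, R + 1 ≤ n → Curve K (ball 0 (R + 1)) (Fr R n) := by
    intro R n hn
    have hsub : ball (0 : ℂ) (R + 1) ⊆ ball 0 (n + 1) := by
      apply ball_subset_ball
      have : (R : ℝ) ≤ n := by exact_mod_cast (by omega : R ≤ n)
      linarith
    refine ⟨?_, fun z hz => ?_⟩
    · exact ((hg R n hn).1.cexp.differentiableOn).smul ((hF n).1.mono hsub)
    · exact hM.smul _ ((hF n).2 z (hsub hz)) _ (Complex.exp_ne_zero _)
  have hev : ∀ R : ℕ, ∀ᶠ n in (𝒰 : Filter ℕ), R + 1 ≤ n := fun R =>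
    h𝒰top (eventually_ge_atTop (R + 1))
  have hmont : ∀ R : ℕ, ∃ h : ℂ → EN N, DifferentiableOn ℂ h (ball 0 (R + 1)) ∧
      TendstoLocallyUniformlyOn (Fr R) h (𝒰 : Filter ℕ) (ball 0 (R + 1)) := by
    intro R
    refine Pool.Agent.H17.montel_ultrafilter 𝒰 (B := 1) ?_ ?_
    · filter_upwards [hev R] with n hn
      exact (hFrK R n hn).1
    · filter_upwards [hev R] with n hn
      exact (hg R n hn).2.1
  choose Hs hHd hHc using hmont
  have hpt : ∀ (R : ℕ), ∀ z ∈ ball (0 : ℂ) (R + 1), Tendsto (fun n => Fr R n z) (𝒰 : Filter ℕ)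
      (𝓝 (Hs R z)) := fun R z hz => (hHc R).tendsto_at hz
  have hz0 : ∀ R : ℕ, (0 : ℂ) ∈ ball (0 : ℂ) (R + 1) := fun R => mem_ball_self (by positivity)
  have hHc0 : ∀ R, c R ≤ ‖Hs R 0‖ := by
    intro R
    have h1 := (hpt R 0 (hz0 R)).norm
    refine ge_of_tendsto h1 ?_
    filter_upwards [hev R] with n hn
    exact (hg R n hn).2.2
  have hHb : ∀ R : ℕ, ∀ z ∈ ball (0 : ℂ) (R + 1), ‖Hs R z‖ ≤ 1 := by
    intro R z hz
    refine le_of_tendsto (hpt R z hz).norm ?_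
    filter_upwards [hev R] with n hn
    exact (hg R n hn).2.1 z hz
  have hH0 : ∀ R, Hs R 0 ≠ 0 := by
    intro R h
    have h2 := hHc0 R
    rw [h, norm_zero] at h2
    exact absurd (hc R) (not_lt.2 h2)
  have hprop : ∀ (R S : ℕ) (z : ℂ), z ∈ ball (0 : ℂ) (R + 1) → z ∈ ball (0 : ℂ) (S + 1) →
      ∀ i j, Hs R z i * Hs S z j = Hs R z j * Hs S z i := by
    intro R S z hR hS i j
    have hco : ∀ (T : ℕ), z ∈ ball (0 : ℂ) (T + 1) → ∀ i, Tendsto (fun n => Fr T n z i)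
        (𝒰 : Filter ℕ) (𝓝 (Hs T z i)) := fun T hT i =>
      ((Lim_pr i).continuous.tendsto _).comp (hpt T z hT)
    have h1 : Tendsto (fun n => Fr R n z i * Fr S n z j) (𝒰 : Filter ℕ)
        (𝓝 (Hs R z i * Hs S z j)) := (hco R hR i).mul (hco S hS j)
    have h2 : Tendsto (fun n => Fr R n z j * Fr S n z i) (𝒰 : Filter ℕ)
        (𝓝 (Hs R z j * Hs S z i)) := (hco R hR j).mul (hco S hS i)
    refine tendsto_nhds_unique h1 (h2.congr fun n => ?_)
    simp only [hFr, PiLp.smul_apply, smul_eq_mul]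
    ring
  obtain ⟨H, hHdiff, hHne, hHloc⟩ := Lim_glue Hs hHd hH0 hprop
  -- membership is invariant under scaling
  have hsm : ∀ (x : EN N) (a : ℂ), a ≠ 0 → (a • x ∈ K ↔ x ∈ K) := by
    intro x a ha
    refine ⟨fun h => ?_, fun h => hM.smul x h a ha⟩
    have := hM.smul _ h a⁻¹ (inv_ne_zero ha)
    rwa [smul_smul, inv_mul_cancel₀ ha, one_smul] at this
  have hsmc : ∀ (x : EN N) (a : ℂ), a ≠ 0 → x ∈ closure K → a • x ∈ closure K := by
    intro x a ha hx
    exact map_mem_closure (continuous_const_smul a) hx fun y hy => hM.smul y hy a ha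
  have hHcl1 : ∀ (R : ℕ), ∀ z ∈ ball (0 : ℂ) (R + 1), Hs R z ∈ closure K := by
    intro R z hz
    refine mem_closure_of_tendsto (hpt R z hz) ?_
    filter_upwards [hev R] with n hn
    exact (hFrK R n hn).2 z hz
  have hmem : ∀ z : ℂ, z ∈ ball (0 : ℂ) ((⌈‖z‖⌉₊ : ℕ) + 1) := by
    intro z
    rw [mem_ball_zero_iff]
    have := Nat.le_ceil ‖z‖
    linarith
  have hHcl : ∀ z, H z ∈ closure K := by
    intro z₀
    obtain ⟨k, u, hua, hu0, hue⟩ := hHloc _ z₀ (hmem z₀)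
    have h1 : ∀ᶠ w in 𝓝[≠] z₀, H w ∈ closure K := by
      filter_upwards [hue.filter_mono nhdsWithin_le_nhds, self_mem_nhdsWithin,
        (hua.continuousAt.eventually_ne hu0).filter_mono nhdsWithin_le_nhds,
        nhdsWithin_le_nhds (isOpen_ball.mem_nhds (hmem z₀))] with w a1 a2 a3 a4
      have h2 := hHcl1 _ w a4
      rw [a1, smul_smul] at h2
      have h3 : (w - z₀) ^ k * u w ≠ 0 := mul_ne_zero (pow_ne_zero _ (sub_ne_zero.2 a2)) a3
      have h4 := hsmc _ _ (inv_ne_zero h3) h2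
      rwa [smul_smul, inv_mul_cancel₀ h3, one_smul] at h4
    have h2 : Tendsto H (𝓝[≠] z₀) (𝓝 (H z₀)) :=
      (hHdiff.continuous.tendsto z₀).mono_left nhdsWithin_le_nhds
    exact isClosed_closure.mem_of_tendsto h2 h1
  -- convergence to `H` where the normalised lifts do not tend to zero
  have hconv : ∀ (R : ℕ) (z : ℂ), z ∈ ball (0 : ℂ) (R + 1) → ∀ v : ℂ → ℂ, AnalyticAt ℂ v z → v z ≠ 0 →
      (∀ᶠ w in 𝓝 z, Hs R w = v w • H w) → ConvAt (𝒰 : Filter ℕ) F H z := by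
    intro R z hz v hva hv0 hve
    obtain ⟨s, hs, hsub⟩ := Metric.eventually_nhds_iff_ball.1
      ((hve.and (hva.eventually_analyticAt.and (hva.continuousAt.eventually_ne hv0))).and (isOpen_ball.mem_nhds hz))
    refine ⟨s, hs, fun n w => Complex.exp (g R n w) * (v w)⁻¹, ?_, ?_⟩
    · filter_upwards [hev R] with n hn
      refine ⟨fun w hw => ?_, fun w hw => mul_ne_zero (Complex.exp_ne_zero _) (inv_ne_zero (hsub w hw).1.2.2)⟩
      exact (((hg R n hn).1.cexp.differentiableAt).mul ((hsub w hw).1.2.1.differentiableAt.inv (hsub w hw).1.2.2)).differentiableWithinAt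
    · have h1 : TendstoLocallyUniformlyOn (fun (_ : ℕ) w => (v w)⁻¹) (fun w => (v w)⁻¹) (𝒰 : Filter ℕ) (ball z s) := by
        intro ε hε w _
        exact ⟨ball z s, self_mem_nhdsWithin, Filter.Eventually.of_forall fun n y _ => refl_mem_uniformity hε⟩
      have h2 : TendstoLocallyUniformlyOn (Fr R) (Hs R) (𝒰 : Filter ℕ) (ball z s) := (hHc R).mono fun w hw => (hsub w hw).2
      have h3 := h1.fun_smul₀ h2 (fun w hw => ((hsub w hw).1.2.1.continuousAt.inv₀ (hsub w hw).1.2.2).continuousWithinAt)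
        (((hHd R).mono fun w hw => (hsub w hw).2).continuousOn)
      refine (h3.congr_right fun w hw => ?_).congr fun n w hw => ?_
      · rw [(hsub w hw).1.1, smul_smul, inv_mul_cancel₀ (hsub w hw).1.2.2, one_smul]
      · simp only [hFr]
        rw [smul_smul, mul_comm]
  have hconvP : ∀ z₀ : ℂ, ∀ᶠ z in 𝓝[≠] z₀, ConvAt (𝒰 : Filter ℕ) F H z := by
    intro z₀
    obtain ⟨k, u, hua, hu0, hue⟩ := hHloc _ z₀ (hmem z₀)
    filter_upwards [hue.eventually_nhds.filter_mono nhdsWithin_le_nhds, hua.eventually_analyticAt.filter_mono nhdsWithin_le_nhds,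
      (hua.continuousAt.eventually_ne hu0).filter_mono nhdsWithin_le_nhds, self_mem_nhdsWithin,
      nhdsWithin_le_nhds (isOpen_ball.mem_nhds (hmem z₀))] with z a1 a2 a3 a4 a5
    refine hconv _ z a5 (fun w => (w - z₀) ^ k * u w) ?_ (mul_ne_zero (pow_ne_zero _ (sub_ne_zero.2 a4)) a3) ?_
    · exact ((analyticAt_id.sub analyticAt_const).pow k).mul a2
    · filter_upwards [a1] with w hw
      rw [hw, smul_smul]
  have hconv0 : ConvAt (𝒰 : Filter ℕ) F H 0 := by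
    obtain ⟨k, u, hua, hu0, hue⟩ := hHloc 0 0 (hz0 0)
    have hk : k = 0 := by
      by_contra hk
      have h1 := hue.self_of_nhds
      rw [sub_self, zero_pow hk, zero_smul] at h1
      exact hH0 0 h1
    subst hk
    refine hconv 0 0 (hz0 0) u hua hu0 ?_
    filter_upwards [hue] with w hw
    rw [hw, pow_zero, one_smul]
  have hlim : IsLimit K (𝒰 : Filter ℕ) F H :=
    ⟨inferInstance, h𝒰top, fun n => (hF n).1, fun n => (hF n).2, hHdiff, hHne, hconv0, hconvP⟩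
  -- at the points of convergence, the set of points outside `K` is open
  have hopen : ∀ z, ConvAt (𝒰 : Filter ℕ) F H z → H z ∉ K → ∀ᶠ w in 𝓝 z, H w ∉ K := by
    rintro z ⟨s, hs, φ, hφ, hφc⟩ hz
    refine hM.hur (𝒰 : Filter ℕ) inferInstance (fun n w => φ n w • F n w) H z s hs ?_ hHdiff.differentiableOn hφc (hHne z) hz
    filter_upwards [hφ, hev (⌈‖z‖ + s⌉₊)] with n h1 h2
    have hsub : ball z s ⊆ ball (0 : ℂ) (n + 1) := by
      intro w hw
      rw [mem_ball_zero_iff]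
      have h3 : ‖w - z‖ < s := by simpa [dist_eq_norm] using hw
      have h4 : ‖w‖ ≤ ‖z‖ + ‖w - z‖ := by
        calc ‖w‖ = ‖z + (w - z)‖ := by rw [add_sub_cancel]
          _ ≤ _ := norm_add_le _ _
      have h5 := Nat.le_ceil (‖z‖ + s)
      have h6 : ((⌈‖z‖ + s⌉₊ : ℕ) : ℝ) + 1 ≤ n := by exact_mod_cast h2
      linarith
    exact ⟨h1.1.smul ((hF n).1.mono hsub), fun w hw => hM.smul _ ((hF n).2 w (hsub hw)) _ (h1.2 w hw)⟩
  have hrel : ∀ z, H z ∈ K → ∀ᶠ w in 𝓝 z, H w ∈ K := by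
    intro z hz
    filter_upwards [hHdiff.continuous.continuousAt.eventually (hM.rel_open _ hz)] with w hw
    exact hw (hHcl w)
  -- the set of points with a punctured neighbourhood outside `K`
  set A : Set ℂ := {z | ∀ᶠ w in 𝓝[≠] z, H w ∉ K} with hA
  have hAopen : IsOpen A := by
    rw [isOpen_iff_mem_nhds]
    intro z hz
    obtain ⟨s, hs, hsz⟩ := Metric.eventually_nhds_iff_ball.1 (eventually_nhdsWithin_iff.1 hz)
    refine Filter.mem_of_superset (ball_mem_nhds z hs) fun w hw => ?_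
    show ∀ᶠ y in 𝓝[≠] w, H y ∉ K
    by_cases hwz : w = z
    · rw [hwz]
      exact hz
    · filter_upwards [nhdsWithin_le_nhds (isOpen_ball.mem_nhds hw), (eventually_ne_nhds hwz).filter_mono nhdsWithin_le_nhds] with y h1 h2
      exact hsz y h1 h2
  have hAclosed : IsClosed A := by
    rw [isClosed_iff_nhds]
    intro z₀ hz₀
    obtain ⟨s, hs, hsz⟩ := Metric.eventually_nhds_iff_ball.1 (eventually_nhdsWithin_iff.1 (hconvP z₀))
    have hP := Lim_preconn z₀ s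
    -- a point of the punctured ball outside `K`
    obtain ⟨z₁, hz₁b, hz₁A⟩ := hz₀ _ (ball_mem_nhds z₀ hs)
    obtain ⟨w, hwP, hwK⟩ : ∃ w, w ∈ ball z₀ s \ {z₀} ∧ H w ∉ K := by
      have h1 : ∀ᶠ w in 𝓝[≠] z₁, w ∈ ball z₀ s := nhdsWithin_le_nhds (isOpen_ball.mem_nhds hz₁b)
      have h2 : ∀ᶠ w in 𝓝[≠] z₁, w ≠ z₀ := by
        by_cases h : z₁ = z₀
        · rw [h]
          exact self_mem_nhdsWithin
        · exact (eventually_ne_nhds h).filter_mono nhdsWithin_le_nhds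
      obtain ⟨w, h3, h4, h5⟩ := (h1.and (h2.and (show ∀ᶠ w in 𝓝[≠] z₁, H w ∉ K from hz₁A))).exists
      exact ⟨w, ⟨h3, h4⟩, h5⟩
    have hall : ∀ y ∈ ball z₀ s \ {z₀}, H y ∉ K := by
      by_contra hcon
      push Not at hcon
      obtain ⟨y, hyP, hyK⟩ := hcon
      have hU : IsOpen {w : ℂ | w ∈ ball z₀ s \ {z₀} ∧ H w ∈ K} := by
        rw [isOpen_iff_mem_nhds]
        rintro w ⟨h1, h2⟩
        filter_upwards [(isOpen_ball.sdiff isClosed_singleton).mem_nhds h1, hrel w h2] with x h3 h4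
        exact ⟨h3, h4⟩
      have hV : IsOpen {w : ℂ | w ∈ ball z₀ s \ {z₀} ∧ H w ∉ K} := by
        rw [isOpen_iff_mem_nhds]
        rintro w ⟨h1, h2⟩
        filter_upwards [(isOpen_ball.sdiff isClosed_singleton).mem_nhds h1, hopen w (hsz w h1.1 h1.2) h2] with x h3 h4
        exact ⟨h3, h4⟩
      obtain ⟨x, -, ⟨-, h1⟩, ⟨-, h2⟩⟩ := hP _ _ hU hV (fun x hx => (em (H x ∈ K)).imp (fun h => ⟨hx, h⟩) fun h => ⟨hx, h⟩)
        ⟨y, hyP, hyP, hyK⟩ ⟨w, hwP, hwP, hwK⟩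
      exact h2 h1
    show ∀ᶠ w in 𝓝[≠] z₀, H w ∉ K
    filter_upwards [nhdsWithin_le_nhds (ball_mem_nhds z₀ hs), self_mem_nhdsWithin] with w h1 h2
    exact hall w ⟨h1, h2⟩
  -- the first curve near the origin
  obtain ⟨k, u, hua, hu0, hue⟩ := hHloc 0 0 (hz0 0)
  have hmt : ∀ n, 0 + 1 ≤ n → mt G (Fr 0 n) 0 = 1 := by
    intro n hn
    have hFn : DifferentiableAt ℂ (F n) 0 :=
      (hF n).1.differentiableAt (isOpen_ball.mem_nhds (hz0 n))
    have h1 := mt_smul hM hFn ((hg 0 n hn).1.cexp.differentiableAt (x := 0)) ((hF n).2 0 (hz0 n))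
      (Complex.exp_ne_zero _)
    rw [hFr, h1, h0]
  have hball := isOpen_ball.mem_nhds (hz0 0)
  obtain ⟨s, hs, hsub⟩ := Metric.eventually_nhds_iff_ball.1 (hue.and hball)
  have hcur0 : ∀ᶠ n in (𝒰 : Filter ℕ), Curve K (ball 0 s) (Fr 0 n) := by
    filter_upwards [hev 0] with n hn
    exact ⟨(hFrK _ n hn).1.mono fun w hw => (hsub w hw).2,
      fun w hw => (hFrK _ n hn).2 w (hsub w hw).2⟩
  have hconv0' : TendstoLocallyUniformlyOn (Fr 0) (Hs 0) (𝒰 : Filter ℕ) (ball 0 s) :=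
    (hHc 0).mono fun w hw => (hsub w hw).2
  have hAempty : A = ∅ := by
    rcases isClopen_iff.1 ⟨hAclosed, hAopen⟩ with h | h
    · exact h
    · exfalso
      have hnot : ∀ z, H z ∉ K := by
        intro z hz
        have h1 : z ∈ A := by rw [h]; trivial
        obtain ⟨w, h2, h3⟩ := ((show ∀ᶠ w in 𝓝[≠] z, H w ∉ K from h1).and ((hrel z hz).filter_mono nhdsWithin_le_nhds)).exists
        exact h2 h3
      have hout : ∀ z ∈ ball (0 : ℂ) s, Hs 0 z ∉ K := by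
        intro z hz hzK
        have h1 := hM.ne _ hzK
        have h2 := (hsub z hz).1
        rw [smul_smul] at h2
        have h3 : (z - 0) ^ k * u z ≠ 0 := by
          intro h3
          rw [h3, zero_smul] at h2
          exact h1 h2
        rw [h2, hsm _ _ h3] at hzK
        exact hnot z hzK
      have h1 := hM.lim (𝒰 : Filter ℕ) inferInstance (Fr 0) (Hs 0) 0 s hs hcur0 hconv0' (hH0 0)
        hout (1 / 2) (by norm_num)
      obtain ⟨n, h2, h3⟩ := (h1.and (hev 0)).exists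
      rw [hmt n h3] at h2
      norm_num at h2
  have hCK : ∀ z, ConvAt (𝒰 : Filter ℕ) F H z → H z ∈ K := by
    intro z hz
    by_contra hcon
    have h1 : z ∈ A := (hopen z hz hcon).filter_mono nhdsWithin_le_nhds
    rw [hAempty] at h1
    exact h1
  have hH0K : H 0 ∈ K := hCK 0 hconv0
  refine ⟨(𝒰 : Filter ℕ), H, hlim, hHcl, hH0K, hCK, ?_, fun R hR => ?_⟩
  swap
  · obtain ⟨S, rfl⟩ : ∃ S, R = S + 1 := ⟨R - 1, by omega⟩
    push_cast
    refine ⟨Hs S, hHd S, hHb S, hHc0 S, fun z hz => ?_⟩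
    obtain ⟨k, u, hua, hu0, hue⟩ := hHloc S z hz
    have h1 := hue.self_of_nhds
    rcases Nat.eq_zero_or_pos k with hk | hk
    · right
      subst hk
      rw [pow_zero, one_smul] at h1
      exact ⟨(u z)⁻¹, inv_ne_zero hu0, by rw [h1, smul_smul, inv_mul_cancel₀ hu0, one_smul]⟩
    · left
      rw [h1, sub_self, zero_pow hk.ne', zero_smul]
  have hκ0 : (0 - 0 : ℂ) ^ k * u 0 ≠ 0 := by
    intro h3
    have h2 := hue.self_of_nhds
    rw [smul_smul, h3, zero_smul] at h2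
    exact hH0 0 h2
  have h0K : Hs 0 0 ∈ K := by
    have h2 := hue.self_of_nhds
    rw [smul_smul] at h2
    rw [h2, hsm _ _ hκ0]
    exact hH0K
  have h1 : 1 ≤ mt G (Hs 0) 0 := mt_limit hM hs hcur0 hconv0' h0K (by
    filter_upwards [hev 0] with n hn
    exact (hmt n hn).ge)
  have h2 : Hs 0 =ᶠ[𝓝 0] fun w => ((w - 0) ^ k * u w) • H w := by
    filter_upwards [hue] with w hw
    rw [hw, smul_smul]
  have h3 : mt G (Hs 0) 0 = mt G (fun w => ((w - 0) ^ k * u w) • H w) 0 := by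
    unfold mt
    rw [h2.deriv_eq, h2.self_of_nhds]
  have h4 := mt_smul hM (F := H) (k := fun w => (w - 0) ^ k * u w) (z := 0) (hHdiff 0)
    (by
      have : DifferentiableAt ℂ u 0 := hua.differentiableAt
      fun_prop) hH0K hκ0
  rw [h3, h4] at h1
  exact h1

end Pool.Agent.H36.BPB
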