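import Pool.Agent.H36.BPB.Resc
import Pool.Agent.H36.BPB.Char
import Pool.Agent.H36.BPB.Lim
import Pool.Agent.H36.BP.Brody

/-!
# BPB Brody: the Brody step for an arbitrary open part

As `BP/Brody.lean`: the limit curve `H` (with bubbling) satisfies `mt G H 0 ≥ 1`.
-/

set_option autoImplicit false

namespace Pool.Agent.H36.BPB

open Filter Topology Metric
open Pool.Agent.H36.BP (Brody_deriv_line)

variable {N : ℕ}

variable {K B : Set (EN N)} {G : EN N → EN N → ℝ} {ρ : EN N → ℝ} {M : ℕ} {c₀ C : ℝ}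

/-- **The Brody step**: if all limits of discs lie in `B` then the discs are bounded. -/
theorem brody_bound_lim (hM : MD K B G ρ M c₀ C) (hB : LimMod2 K B) :
    ∃ L : ℝ, 0 < L ∧ ∀ F, Curve K (ball 0 1) F → mt G F 0 ≤ L := by
  by_contra hcon
  have hunb : ∀ L : ℝ, ∃ F, Curve K (ball 0 1) F ∧ L < mt G F 0 := by
    intro L
    by_contra h
    push Not at h
    apply hcon
    refine ⟨max L 1, lt_of_lt_of_le one_pos (le_max_right _ _), fun F hF => ?_⟩
    exact (h F hF).trans (le_max_left _ _)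
  choose F hF1 hF2 hF3 using fun n => rescale hM hunb n
  obtain ⟨C₁, hC₁, hch⟩ := char_bound2 hM
  obtain ⟨l, H, hlim, hHcl, hH0K, hCK, hH0, hHR⟩ := limit_curveB hM F hF1 hF2 (fun R => Real.exp (-(C₁ * (1 + (R : ℝ) ^ 2)))) (fun R _ => Real.exp_pos _) (by
    intro R hR n hn
    have hR0 : (0 : ℝ) < R := by exact_mod_cast hR
    have hle : (R : ℝ) + 1 ≤ n + 1 := by
      have : (R : ℝ) ≤ n := by exact_mod_cast hn
      linarith
    have hsub : ball (0 : ℂ) (R + 1) ⊆ ball (0 : ℂ) (n + 1) := ball_subset_ball hle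
    exact hch R hR0 (F n) ⟨(hF1 n).1.mono hsub, fun z hz => (hF1 n).2 z (hsub hz)⟩ (hF2 n) (fun z hz => hF3 n z (hsub hz)))
  -- the growth of the limit curve
  have hord : OrdTwo H := by
    refine ⟨5 * C₁, fun r hr => ?_⟩
    set R : ℕ := ⌈r⌉₊ with hR
    have h1 : 1 ≤ R := Nat.one_le_iff_ne_zero.mpr (by rw [hR]; exact (Nat.ceil_pos.mpr hr).ne')
    have h2 : r ≤ R := Nat.le_ceil r
    have h3 : (R : ℝ) < r + 1 := Nat.ceil_lt_add_one hr.le
    obtain ⟨HR, h4, h5, h6, h7⟩ := hHR R h1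
    have hsub : ball (0 : ℂ) r ⊆ ball (0 : ℂ) R := ball_subset_ball h2
    refine ⟨HR, h4.mono hsub, fun z hz => h5 z (hsub hz), le_trans (Real.exp_le_exp.mpr ?_) h6, fun z hz => h7 z (hsub hz)⟩
    have h8 : (1 + (R : ℝ) ^ 2) ≤ 5 * (1 + r ^ 2) := by nlinarith [sq_nonneg (r - 1)]
    have h9 := mul_le_mul_of_nonneg_left h8 hC₁
    linarith
  have hrel : ∀ᶠ z in 𝓝 (0 : ℂ), H z ∈ K := by
    filter_upwards [hlim.hol.continuous.continuousAt.eventually (hM.rel_open _ hH0K)] with w hw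
    exact hw (hHcl w)
  have hzero : mt G H 0 = 0 := by
    by_cases hc : ∃ z w, ∀ c : ℂ, H z ≠ c • H w
    · refine hM.zero H 0 (hlim.hol.analyticAt 0) ?_
      filter_upwards [hrel] with z hz
      exact ⟨hz, hB l F H hlim hHcl hH0K hCK hc hord z hz⟩
    · push Not at hc
      obtain ⟨a, ha⟩ := Brody_deriv_line (hlim.hol 0) (fun z => hc z 0)
      exact mt_const hM hH0K ha
  linarith

end Pool.Agent.H36.BPB
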