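import Pool.Agent.H36.BPB.ExtB

/-!
# BPB (port) ExtD: bounded lifts

`g, b` from `annulus_bounds` for `r < r₁`, `j = -⌊b/c₀⌋` (an integer), `θ z = z^j exp(-g z/c₀)`, `t = b/c₀ + j ∈ [0,1)`.
* upper bound: `|F z| ≤ e^(1/c₀) exp((Re g + b log|z|)/c₀)`, so `|θ z F z| ≤ e^(1/c₀) |z|^t ≤ e^(1/c₀)`.
* lower bound at `z₁` (`m₁ = mt G F z₁ > 0`): `|F z₁|^(c₀) exp(-(Re g + b log|z₁|)) ≥ q`, `q = m₁ (log 1/|z₁|)^(-C') |z₁|/(e L (log 1/r₁)^(-C'-1)) > 0`, so `|θ z₁ F z₁| = |z₁|^t |F z₁| exp(-(..)/c₀) ≥ |z₁| q^(1/c₀) = c`.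
-/

set_option autoImplicit false

namespace Pool.Agent.H36.BPB

open Filter Topology Metric
open Pool.Agent.H36.BP

variable {N : ℕ}

variable {K B : Set (EN N)} {G : EN N → EN N → ℝ} {ρ : EN N → ℝ} {M : ℕ} {c₀ C : ℝ}


theorem bounded_lifts (hM : MD K B G ρ M c₀ C) {L : ℝ} (hL : 0 < L) {F : ℂ → EN N} (hF : Curve K (ball 0 1 \ {0}) F)
    (hgr : ∀ z : ℂ, z ≠ 0 → ‖z‖ < 1 → mt G F z * (‖z‖ * Real.log (1 / ‖z‖)) ≤ L) {r₁ : ℝ} {z₁ : ℂ} (hz1 : 0 < ‖z₁‖) (hz2 : ‖z₁‖ < r₁)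
    (hr1 : r₁ < 1) (hpos : 0 < mt G F z₁) :
    ∃ c : ℝ, 0 < c ∧ ∀ r : ℝ, 0 < r → r < ‖z₁‖ → ∃ θ : ℂ → ℂ, DifferentiableOn ℂ θ {0}ᶜ ∧
      (∀ z : ℂ, r ≤ ‖z‖ → ‖z‖ ≤ r₁ → ‖θ z • F z‖ ≤ Real.exp (1 / c₀)) ∧ c ≤ ‖θ z₁ • F z₁‖ := by
  have hc := hM.c₀_pos
  have hr0 : 0 < r₁ := hz1.trans hz2
  have hlog1 : 0 < Real.log (1 / ‖z₁‖) := Real.log_pos (by
    rw [lt_div_iff₀ hz1, one_mul]
    exact hz2.trans hr1)
  have hlogr : 0 < Real.log (1 / r₁) := Real.log_pos (by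
    rw [lt_div_iff₀ hr0, one_mul]
    exact hr1)
  set P : ℝ := mt G F z₁ * Real.log (1 / ‖z₁‖) ^ (-(4 * C * L ^ 2 + 1)) * ‖z₁‖ with hP
  set Q : ℝ := Real.exp 1 * L * Real.log (1 / r₁) ^ (-(4 * C * L ^ 2 + 2)) with hQ
  have hP0 : 0 < P := mul_pos (mul_pos hpos (Real.rpow_pos_of_pos hlog1 _)) hz1
  have hQ0 : 0 < Q := mul_pos (mul_pos (Real.exp_pos 1) hL) (Real.rpow_pos_of_pos hlogr _)
  refine ⟨Real.exp (Real.log ‖z₁‖ + Real.log (P / Q) / c₀), Real.exp_pos _, ?_⟩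
  intro r hr hrz
  obtain ⟨g, b, hg, hgb⟩ := annulus_bounds hM hL hF hgr hr (hrz.trans hz2) hr1
  have ht0 : 0 ≤ b / c₀ + ((-⌊b / c₀⌋ : ℤ) : ℝ) := by
    have h := Int.floor_le (b / c₀)
    push_cast
    linarith
  have ht1 : b / c₀ + ((-⌊b / c₀⌋ : ℤ) : ℝ) ≤ 1 := by
    have h := Int.lt_floor_add_one (b / c₀)
    push_cast
    linarith
  set j : ℤ := -⌊b / c₀⌋ with hj
  -- the norm of the lift
  have hnorm : ∀ z : ℂ, 0 < ‖z‖ → 0 < ‖F z‖ → ‖(z ^ j * Complex.exp (-(g z / c₀))) • F z‖ =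
      Real.exp ((j : ℝ) * Real.log ‖z‖ - (g z).re / c₀ + Real.log ‖F z‖) := by
    intro z hz hFz
    rw [norm_smul, norm_mul, norm_zpow, Complex.norm_exp, Real.exp_add, Real.exp_sub,
      Real.exp_log hFz]
    have h1 : (-(g z / (c₀ : ℂ))).re = -((g z).re / c₀) := by
      rw [Complex.neg_re, Complex.div_ofReal_re]
    rw [h1, Real.exp_neg]
    have h2 : Real.exp ((j : ℝ) * Real.log ‖z‖) = ‖z‖ ^ j := by
      rw [mul_comm, Real.exp_mul, Real.exp_log hz, Real.rpow_intCast]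
    rw [h2]
    field_simp
  have hFK : ∀ z : ℂ, 0 < ‖z‖ → ‖z‖ < 1 → 0 < ‖F z‖ := by
    intro z hz hz'
    refine norm_pos_iff.2 (hM.ne _ (hF.2 z ⟨?_, ?_⟩))
    · rw [mem_ball_zero_iff]
      exact hz'
    · exact norm_pos_iff.1 hz
  have hpow : ∀ z : ℂ, 0 < ‖F z‖ → ‖F z‖ ^ c₀ = Real.exp (Real.log ‖F z‖ * c₀) := fun z hz =>
    Real.rpow_def_of_pos hz c₀
  refine ⟨fun z => z ^ j * Complex.exp (-(g z / c₀)), ?_, ?_, ?_⟩
  · intro z hz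
    have hz' : z ≠ 0 := hz
    have h1 : DifferentiableAt ℂ g z := (hg z hz).differentiableAt (isOpen_compl_singleton.mem_nhds hz)
    exact ((differentiableAt_zpow.2 (Or.inl hz')).mul
      ((h1.div_const _).neg.cexp)).differentiableWithinAt
  · intro z hz hz'
    have hz0 : 0 < ‖z‖ := hr.trans_le hz
    have hFz := hFK z hz0 (hz'.trans_lt hr1)
    show ‖(z ^ j * Complex.exp (-(g z / c₀))) • F z‖ ≤ _
    rw [hnorm z hz0 hFz]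
    refine Real.exp_le_exp.2 ?_
    have h1 := (hgb z hz hz').1
    rw [hpow z hFz, ← Real.exp_add, Real.exp_le_exp, ← le_div_iff₀ hc] at h1
    have h2 : Real.log ‖z‖ ≤ 0 := Real.log_nonpos hz0.le (hz'.trans hr1.le)
    have h3 : (1 + ((g z).re + b * Real.log ‖z‖)) / c₀ =
        1 / c₀ + (g z).re / c₀ + b / c₀ * Real.log ‖z‖ := by
      field_simp
      ring
    have h4 := mul_nonpos_of_nonneg_of_nonpos ht0 h2
    rw [h3] at h1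
    linarith
  · have hFz := hFK z₁ hz1 (hz2.trans hr1)
    show _ ≤ ‖(z₁ ^ j * Complex.exp (-(g z₁ / c₀))) • F z₁‖
    rw [hnorm z₁ hz1 hFz]
    refine Real.exp_le_exp.2 ?_
    have h1 := (hgb z₁ hrz.le hz2.le).2
    rw [← hP, ← hQ, hpow z₁ hFz] at h1
    have h2 : Real.log (P / Q) + ((g z₁).re + b * Real.log ‖z₁‖) ≤ Real.log ‖F z₁‖ * c₀ := by
      have h3 : P / Q * Real.exp ((g z₁).re + b * Real.log ‖z₁‖) ≤
          Real.exp (Real.log ‖F z₁‖ * c₀) := by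
        rw [div_mul_eq_mul_div, div_le_iff₀ hQ0, mul_comm (Real.exp _) Q]
        exact h1
      have h4 : P / Q = Real.exp (Real.log (P / Q)) := (Real.exp_log (div_pos hP0 hQ0)).symm
      rw [h4, ← Real.exp_add, Real.exp_le_exp] at h3
      exact h3
    rw [← div_le_iff₀ hc] at h2
    have h3 : (Real.log (P / Q) + ((g z₁).re + b * Real.log ‖z₁‖)) / c₀ =
        Real.log (P / Q) / c₀ + (g z₁).re / c₀ + b / c₀ * Real.log ‖z₁‖ := by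
      field_simp
      ring
    have h4 : Real.log ‖z₁‖ ≤ 0 := Real.log_nonpos hz1.le (hz2.trans hr1).le
    have h5 : Real.log ‖z₁‖ ≤ (b / c₀ + (j : ℝ)) * Real.log ‖z₁‖ := by
      nlinarith
    rw [h3] at h2
    linarith

end Pool.Agent.H36.BPB
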