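import Pool.Agent.H36.BPB.Defs

/-!
# BPB Hur: Hurwitz' theorem for a boundary which is locally given by one equation
-/

set_option autoImplicit false

open Filter Topology Metric

namespace Pool.Agent.H36.BPB

variable {V : Type} [NormedAddCommGroup V] [NormedSpace ℂ V] [CompleteSpace V]

/-- If the curves `F n` in `K` tend to the curve `H` near `z₀` and `H z₀` is a boundary point of `K`, then `H` lies in the boundary near `z₀`. -/
theorem hur_of_eqn {X K : Set V} (hcl : ∀ x ∈ closure K, x ≠ 0 → x ∈ X) (hKX : K ⊆ X)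
    (heqn : ∀ x ∈ X, ∃ h : V → ℂ, AnalyticAt ℂ h x ∧ ∀ᶠ y in 𝓝 x, y ∈ X → (y ∉ K ↔ h y = 0)) :
    ∀ (l : Filter ℕ), l.NeBot → ∀ (F : ℕ → ℂ → V) (H : ℂ → V) (z₀ : ℂ) (s : ℝ), 0 < s →
    (∀ᶠ n in l, DifferentiableOn ℂ (F n) (Metric.ball z₀ s) ∧ ∀ z ∈ Metric.ball z₀ s, F n z ∈ K) → DifferentiableOn ℂ H (Metric.ball z₀ s) →
    TendstoLocallyUniformlyOn F H l (Metric.ball z₀ s) → H z₀ ≠ 0 → H z₀ ∉ K → ∀ᶠ z in 𝓝 z₀, H z ∉ K := by
  intro l hl F H z₀ s hs hF hH hlim h0 hK
  have hz₀ : z₀ ∈ ball z₀ s := mem_ball_self hs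
  have hHa : ∀ z ∈ ball z₀ s, AnalyticAt ℂ H z := fun z hz => hH.analyticAt (isOpen_ball.mem_nhds hz)
  have hHcl : ∀ z ∈ ball z₀ s, H z ∈ closure K := by
    intro z hz
    refine mem_closure_of_tendsto (hlim.tendsto_at hz) ?_
    filter_upwards [hF] with n hn
    exact hn.2 z hz
  have hHX : H z₀ ∈ X := hcl _ (hHcl z₀ hz₀) h0
  obtain ⟨h, hh, hhe⟩ := heqn _ hHX
  have ha : AnalyticAt ℂ (fun z => h (H z)) z₀ := hh.comp (hHa z₀ hz₀)
  -- a neighbourhood of `H z₀`
  obtain ⟨δ, hδ, hδb⟩ := Metric.eventually_nhds_iff_ball.1 (hhe.and hh.eventually_analyticAt)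
  have hHX' : ∀ᶠ z in 𝓝 z₀, H z ∈ X := by
    filter_upwards [isOpen_ball.mem_nhds hz₀, (hHa z₀ hz₀).continuousAt.eventually_ne h0] with z h1 h2
    exact hcl _ (hHcl z h1) h2
  rcases ha.eventually_eq_zero_or_eventually_ne_zero with hzero | hne
  · filter_upwards [hzero, hHX', (hHa z₀ hz₀).continuousAt.eventually (ball_mem_nhds _ hδ)] with z h1 h2 h3
    exact ((hδb _ h3).1 h2).mpr h1
  exfalso
  -- a small circle
  have hcont : ∀ᶠ z in 𝓝 z₀, H z ∈ ball (H z₀) (δ / 2) :=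
    (hHa z₀ hz₀).continuousAt.eventually (ball_mem_nhds _ (by positivity))
  obtain ⟨r₀, hr₀, hr₀b⟩ := Metric.eventually_nhds_iff_ball.1
    ((eventually_nhdsWithin_iff.1 hne).and (hcont.and (isOpen_ball.mem_nhds hz₀)))
  set r : ℝ := r₀ / 2 with hr
  have hr0 : 0 < r := by positivity
  have hcb : closedBall z₀ r ⊆ ball z₀ r₀ := closedBall_subset_ball (by rw [hr]; linarith)
  have hcs : closedBall z₀ r ⊆ ball z₀ s := fun z hz => (hr₀b z (hcb hz)).2.2
  -- the values of `F n` on the closed disc are near `H z₀`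
  have huni : ∀ ε : ℝ, 0 < ε → ∀ᶠ n in l, ∀ z ∈ closedBall z₀ r, dist (H z) (F n z) < ε := by
    intro ε hε
    have h1 := (tendstoLocallyUniformlyOn_iff_forall_isCompact isOpen_ball).1 hlim (closedBall z₀ r) hcs (isCompact_closedBall _ _)
    exact (Metric.tendstoUniformlyOn_iff.1 h1) ε hε
  have hnear : ∀ᶠ n in l, ∀ z ∈ closedBall z₀ r, F n z ∈ ball (H z₀) δ := by
    filter_upwards [huni (δ / 2) (by positivity)] with n hn z hz
    have h1 := hn z hz
    have h2 : dist (H z) (H z₀) < δ / 2 := (hr₀b z (hcb hz)).2.1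
    rw [mem_ball]
    calc dist (F n z) (H z₀) ≤ dist (F n z) (H z) + dist (H z) (H z₀) := dist_triangle _ _ _
      _ < δ := by rw [dist_comm (F n z)]; linarith
  have hHball : ∀ z ∈ closedBall z₀ r, H z ∈ ball (H z₀) δ := fun z hz => by
    have h2 : dist (H z) (H z₀) < δ / 2 := (hr₀b z (hcb hz)).2.1
    rw [mem_ball]
    linarith
  -- the minimum on the circle
  have hac : ContinuousOn (fun z => ‖h (H z)‖) (sphere z₀ r) := by
    intro z hz
    have hzc := sphere_subset_closedBall hz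
    exact (((hδb _ (hHball z hzc)).2.continuousAt.comp (hHa z (hcs hzc)).continuousAt).norm).continuousWithinAt
  obtain ⟨z₁, hz₁, hmin⟩ := (isCompact_sphere z₀ r).exists_isMinOn (NormedSpace.sphere_nonempty.2 hr0.le) hac
  set m : ℝ := ‖h (H z₁)‖ with hm
  have hm0 : 0 < m := by
    rw [hm, norm_pos_iff]
    have h1 := sphere_subset_closedBall hz₁
    refine (hr₀b z₁ (hcb h1)).1 ?_
    intro h2
    rw [Set.mem_singleton_iff.1 h2, mem_sphere, dist_self] at hz₁
    linarith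
  -- pointwise convergence, uniform on the circle
  have hcomp : ∀ᶠ n in l, ∀ z ∈ sphere z₀ r, m / 2 ≤ ‖h (F n z)‖ := by
    -- `h` is uniformly continuous on the compact set `H (circle)`
    have hKc : IsCompact (H '' sphere z₀ r) := (isCompact_sphere z₀ r).image_of_continuousOn
      fun z hz => (hHa z (hcs (sphere_subset_closedBall hz))).continuousAt.continuousWithinAt
    have hpt : ∀ x ∈ H '' sphere z₀ r, ∃ t ∈ 𝓝[H '' sphere z₀ r] x, ∃ ε : ℝ, 0 < ε ∧ ∀ y ∈ t, ∀ w, dist y w < ε → ‖h w - h y‖ < m / 2 := by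
      rintro x ⟨z, hz, rfl⟩
      have h1 : ContinuousAt h (H z) := (hδb _ (hHball z (sphere_subset_closedBall hz))).2.continuousAt
      obtain ⟨ε, hε, h2⟩ := Metric.continuousAt_iff.1 h1 (m / 4) (by positivity)
      refine ⟨ball (H z) (ε / 2), nhdsWithin_le_nhds (ball_mem_nhds _ (by positivity)), ε / 2, by positivity, fun y hy w hw => ?_⟩
      have h3 : dist y (H z) < ε := by rw [mem_ball] at hy; linarith
      have h4 : dist w (H z) < ε := by
        rw [mem_ball] at hy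
        calc dist w (H z) ≤ dist w y + dist y (H z) := dist_triangle _ _ _
          _ < ε := by rw [dist_comm w y]; linarith
      have h5 := h2 h3
      have h6 := h2 h4
      rw [← dist_eq_norm]
      calc dist (h w) (h y) ≤ dist (h w) (h (H z)) + dist (h (H z)) (h y) := dist_triangle _ _ _
        _ < m / 2 := by rw [dist_comm (h (H z))]; linarith
    obtain ⟨ε, hε, hεt⟩ : ∃ ε : ℝ, 0 < ε ∧ ∀ y ∈ H '' sphere z₀ r, ∀ w, dist y w < ε → ‖h w - h y‖ < m / 2 := by
      refine hKc.induction_on (p := fun S => ∃ ε : ℝ, 0 < ε ∧ ∀ y ∈ S, ∀ w, dist y w < ε → ‖h w - h y‖ < m / 2) ?_ ?_ ?_ ?_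
      · exact ⟨1, one_pos, fun y hy => absurd hy (Set.notMem_empty y)⟩
      · rintro S T hST ⟨ε, hε, h1⟩
        exact ⟨ε, hε, fun y hy => h1 y (hST hy)⟩
      · rintro S T ⟨ε, hε, h1⟩ ⟨ε', hε', h2⟩
        refine ⟨min ε ε', lt_min hε hε', ?_⟩
        rintro y (hy | hy) w hw
        · exact h1 y hy w (hw.trans_le (min_le_left _ _))
        · exact h2 y hy w (hw.trans_le (min_le_right _ _))
      · intro x hx
        obtain ⟨t, ht, ε, hε, h1⟩ := hpt x hx
        exact ⟨t, ht, ε, hε, h1⟩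
    filter_upwards [huni ε hε] with n hn z hz
    have h1 := hεt (H z) (Set.mem_image_of_mem _ hz) (F n z) (hn z (sphere_subset_closedBall hz))
    have h2 : m ≤ ‖h (H z)‖ := hmin hz
    have h3 := norm_sub_norm_le (h (H z)) (h (F n z))
    rw [norm_sub_rev] at h3
    linarith
  -- the maximum principle for `1 / h (F n z)`
  have hbd : ∀ᶠ n in l, m / 2 ≤ ‖h (F n z₀)‖ := by
    filter_upwards [hcomp, hnear, hF] with n h1 h2 h3
    have hne' : ∀ z ∈ closedBall z₀ r, h (F n z) ≠ 0 := by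
      intro z hz h4
      exact ((hδb _ (h2 z hz)).1 (hKX (h3.2 z (hcs hz)))).mpr h4 (h3.2 z (hcs hz))
    have hd : DiffContOnCl ℂ (fun z => (h (F n z))⁻¹) (ball z₀ r) := by
      refine DifferentiableOn.diffContOnCl ?_
      rw [closure_ball z₀ hr0.ne']
      intro z hz
      have h5 : DifferentiableAt ℂ (F n) z := h3.1.differentiableAt (isOpen_ball.mem_nhds (hcs hz))
      have h6 : DifferentiableAt ℂ h (F n z) := (hδb _ (h2 z hz)).2.differentiableAt
      exact ((h6.comp z h5).inv (hne' z hz)).differentiableWithinAt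
    have h4 := Complex.norm_le_of_forall_mem_frontier_norm_le (C := (m / 2)⁻¹) isBounded_ball hd (fun w hw => by
      rw [frontier_ball z₀ hr0.ne'] at hw
      rw [norm_inv]
      exact inv_anti₀ (by positivity) (h1 w hw)) (subset_closure (mem_ball_self hr0))
    rw [norm_inv] at h4
    have h5 : 0 < ‖h (F n z₀)‖ := norm_pos_iff.2 (hne' z₀ (mem_closedBall_self hr0.le))
    exact (inv_le_inv₀ h5 (by positivity)).1 h4
  have hzero : h (H z₀) = 0 := (hhe.self_of_nhds hHX).mp hK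
  have ht : Tendsto (fun n => ‖h (F n z₀)‖) l (𝓝 ‖h (H z₀)‖) := (hh.continuousAt.tendsto.comp (hlim.tendsto_at hz₀)).norm
  rw [hzero, norm_zero] at ht
  have := ge_of_tendsto ht hbd
  linarith

end Pool.Agent.H36.BPB
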