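import Pool.Agent.H36.BP.Main
import Pool.Agent.H36.BPB.Brody
import Pool.Agent.H36.BPB.ExtA
import Pool.Agent.H36.BPB.ExtC
import Pool.Agent.H36.BPB.ExtD

/-!
# BPB Main (port): the extension across the puncture and the Kobayashi estimate from the bound for discs
-/

set_option autoImplicit false

namespace Pool.Agent.H36.BPB

open Filter Topology Metric
open Pool.Agent.H36.BP hiding MetricData

variable {N : ℕ}

open Pool.Agent.H17 (PN HolomorphicInto puncturedDisc VanishesAt vanishesAt_mk_iff)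

variable {K B : Set (EN N)} {G : EN N → EN N → ℝ} {ρ : EN N → ℝ} {M : ℕ} {c₀ C : ℝ}

/-- extension across the puncture, in terms of cones -/
theorem picard_cone_of_bound (hM : MD K B G ρ M c₀ C) (hbound : ∃ L : ℝ, 0 < L ∧ ∀ F, Curve K (ball 0 1) F → mt G F 0 ≤ L) (hBs : ∀ x ∈ B, ∀ c : ℂ, c ≠ 0 → c • x ∈ B)
    (hρ : ∀ x ∈ K, x ∈ B → ρ x = 0) (f : ℂ → PN N) (hf : HolomorphicInto f puncturedDisc)
    (hfK : ∀ z ∈ puncturedDisc, (WithLp.toLp 2 (f z).rep : EN N) ∈ K) (hfB : ∃ z ∈ puncturedDisc, (WithLp.toLp 2 (f z).rep : EN N) ∉ B) :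
    ∃ g : ℂ → PN N, HolomorphicInto g (ball 0 1) ∧ ∀ z ∈ puncturedDisc, g z = f z := by
  classical
  -- lifts and representatives
  have hrep : ∀ (z : ℂ) (x : EN N) (h : x.ofLp ≠ 0), f z = Projectivization.mk ℂ _ h →
      ∃ a : ℂ, a ≠ 0 ∧ (WithLp.toLp 2 (f z).rep : EN N) = a • x := by
    intro z x h h1
    obtain ⟨a, ha, h2⟩ := Pool.Agent.H17.exists_smul_rep x.ofLp h
    refine ⟨a, ha, ?_⟩
    rw [h1, h2]
    rfl
  have hliftK : ∀ z ∈ puncturedDisc, ∀ (x : EN N) (h : x.ofLp ≠ 0), f z = Projectivization.mk ℂ _ h → x ∈ K := by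
    intro z hz x h h1
    obtain ⟨a, ha, h2⟩ := hrep z x h h1
    have h3 := hM.smul _ (hfK z hz) a⁻¹ (inv_ne_zero ha)
    rwa [h2, smul_smul, inv_mul_cancel₀ ha, one_smul] at h3
  have hliftB : ∀ (z : ℂ) (x : EN N) (h : x.ofLp ≠ 0), f z = Projectivization.mk ℂ _ h →
      ((WithLp.toLp 2 (f z).rep : EN N) ∈ B ↔ x ∈ B) := by
    intro z x h h1
    obtain ⟨a, ha, h2⟩ := hrep z x h h1
    constructor
    · intro h3
      rw [h2] at h3
      have h4 := hBs _ h3 a⁻¹ (inv_ne_zero ha)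
      rwa [smul_smul, inv_mul_cancel₀ ha, one_smul] at h4
    · intro h3
      rw [h2]
      exact hBs _ h3 a ha
  -- `f` lies in `B` near no point
  have hnB' : ∀ z ∈ puncturedDisc, ¬ ∀ᶠ w in 𝓝 z, (WithLp.toLp 2 (f w).rep : EN N) ∈ B := by
    intro z hz hzB
    set A : Set ℂ := {z | ∀ᶠ w in 𝓝 z, (WithLp.toLp 2 (f w).rep : EN N) ∈ B} with hA
    have hAo : IsOpen A := by
      rw [isOpen_iff_mem_nhds]
      intro z hz
      exact hz.eventually_nhds
    have hcl : closure A ∩ puncturedDisc ⊆ A := by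
      rintro y ⟨hy1, hy2⟩
      by_cases hyA : y ∈ A
      · exact hyA
      obtain ⟨φ, hφ, he⟩ := hf y hy2
      have hFa : AnalyticAt ℂ (fun w => (WithLp.toLp 2 (φ w) : EN N)) y := analyticAt_toLp hφ
      have hFK : ∀ᶠ w in 𝓝 y, (WithLp.toLp 2 (φ w) : EN N) ∈ K := by
        filter_upwards [he, isOpen_puncturedDisc.mem_nhds hy2] with w hw hw2
        obtain ⟨h1, h2⟩ := hw
        exact hliftK w hw2 _ h1 h2
      have hfreq : ∃ᶠ w in 𝓝[≠] y, ρ (WithLp.toLp 2 (φ w) : EN N) = 0 := by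
        have h1 : ∃ᶠ w in 𝓝 y, w ∈ A := mem_closure_iff_frequently.mp hy1
        have h2 : ∃ᶠ w in 𝓝 y, w ∈ A ∧ w ≠ y := by
          refine h1.mono fun w hw => ⟨hw, ?_⟩
          rintro rfl
          exact hyA hw
        have h3 : ∃ᶠ w in 𝓝[≠] y, w ∈ A := by
          rw [frequently_nhdsWithin_iff]
          exact h2.mono fun w hw => ⟨hw.1, hw.2⟩
        refine (h3.and_eventually ((hFK.and he).filter_mono nhdsWithin_le_nhds)).mono ?_
        rintro w ⟨hw1, hw2, h4, h5⟩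
        have h6 : (WithLp.toLp 2 (f w).rep : EN N) ∈ B := by
          have h7 : ∀ᶠ v in 𝓝 w, (WithLp.toLp 2 (f v).rep : EN N) ∈ B := hw1
          exact h7.self_of_nhds
        exact hρ _ hw2 ((hliftB w (WithLp.toLp 2 (φ w)) h4 h5).mp h6)
      have h8 := hM.ρ_zero _ y hFa hFK hfreq
      show ∀ᶠ w in 𝓝 y, (WithLp.toLp 2 (f w).rep : EN N) ∈ B
      filter_upwards [h8, he] with w hw hw2
      obtain ⟨h4, h5⟩ := hw2
      exact (hliftB w (WithLp.toLp 2 (φ w)) h4 h5).mpr hw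
    have hsub : puncturedDisc ⊆ A := preconnected_puncturedDisc.subset_of_closure_inter_subset hAo ⟨z, hz, hzB⟩ hcl
    obtain ⟨z', hz'1, hz'2⟩ := hfB
    have h9 : ∀ᶠ w in 𝓝 z', (WithLp.toLp 2 (f w).rep : EN N) ∈ B := hsub hz'1
    exact hz'2 h9.self_of_nhds
  obtain ⟨F, hFd, hFf⟩ := lift_punct hf (r := 1 / 2) (by norm_num) (by norm_num)
  have hhalf : ∀ z ∈ ball (0 : ℂ) 1 \ {0}, z / 2 ∈ ball (0 : ℂ) (1 / 2) \ {0} := by
    rintro z ⟨hz1, hz2⟩
    rw [mem_ball_zero_iff] at hz1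
    refine ⟨?_, ?_⟩
    · rw [mem_ball_zero_iff, norm_div]
      simp only [Complex.norm_ofNat]
      linarith
    · simpa using hz2
  have hsubp : ball (0 : ℂ) (1 / 2) \ {0} ⊆ puncturedDisc := by
    rintro z ⟨hz1, hz2⟩
    exact ⟨ball_subset_ball (by norm_num) hz1, hz2⟩
  have hopen : IsOpen (ball (0 : ℂ) (1 / 2) \ {0}) := isOpen_ball.sdiff isClosed_singleton
  have hopen1 : IsOpen (ball (0 : ℂ) 1 \ {0}) := isOpen_ball.sdiff isClosed_singleton
  set F₁ : ℂ → EN N := fun z => F (z / 2) with hF₁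
  have hF1c : Curve K (ball 0 1 \ {0}) F₁ := by
    refine ⟨?_, ?_⟩
    · intro z hz
      have h1 : DifferentiableAt ℂ F (z / 2) := hFd.differentiableAt (hopen.mem_nhds (hhalf z hz))
      exact (h1.comp z (differentiableAt_id.div_const 2)).differentiableWithinAt
    · intro z hz
      obtain ⟨h1, h2⟩ := hFf _ (hhalf z hz)
      exact hliftK _ (hsubp (hhalf z hz)) _ h1 h2
  -- the constant case
  by_cases hconst : ∃ c₁ : PN N, ∀ z ∈ puncturedDisc, f z = c₁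
  · obtain ⟨c₁, hc₁⟩ := hconst
    refine ⟨fun _ => c₁, ?_, fun z hz => (hc₁ z hz).symm⟩
    intro z _
    exact ⟨fun _ => c₁.rep, analyticAt_const, Filter.Eventually.of_forall fun w => ⟨c₁.rep_nonzero, (Projectivization.mk_rep c₁).symm⟩⟩
  have han1 : ∀ z ∈ ball (0 : ℂ) 1 \ {0}, AnalyticAt ℂ F₁ z := fun z hz => hF1c.1.analyticAt (hopen1.mem_nhds hz)
  have hc : ∀ z ∈ ball (0 : ℂ) 1 \ {0}, ¬ ∀ᶠ w in 𝓝 z, wd (F₁ w) (deriv F₁ w) = 0 := by
    intro z hz hw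
    apply hconst
    have h0 : F₁ z ≠ 0 := hM.ne _ (hF1c.2 z hz)
    have h1 := const_of_wedge (han1 z hz) h0 hw
    refine ⟨f (z / 2), const_identity preconnected_puncturedDisc hf (hsubp (hhalf z hz)) ?_⟩
    have h2 : Tendsto (fun w : ℂ => 2 * w) (𝓝 (z / 2)) (𝓝 z) := by
      have : Tendsto (fun w : ℂ => 2 * w) (𝓝 (z / 2)) (𝓝 (2 * (z / 2))) := (continuous_const.mul continuous_id).tendsto _
      rwa [mul_div_cancel₀ z (two_ne_zero)] at this
    filter_upwards [h2.eventually h1, hopen.mem_nhds (hhalf z hz)] with w hw1 hw2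
    obtain ⟨c, hc0, hcw⟩ := hw1
    have e1 : F₁ (2 * w) = F w := by
      rw [hF₁]
      simp only
      rw [mul_div_cancel_left₀ w (two_ne_zero)]
    rw [e1] at hcw
    obtain ⟨h3, h4⟩ := hFf w hw2
    obtain ⟨h5, h6⟩ := hFf _ (hhalf z hz)
    rw [h4, h6, Projectivization.mk_eq_mk_iff']
    refine ⟨c, ?_⟩
    rw [hcw]
    rfl
  have hnB : ∀ z ∈ ball (0 : ℂ) 1 \ {0}, ¬ ∀ᶠ w in 𝓝 z, F₁ w ∈ B := by
    intro z hz hw
    apply hnB' _ (hsubp (hhalf z hz))
    have h2 : Tendsto (fun w : ℂ => 2 * w) (𝓝 (z / 2)) (𝓝 z) := by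
      have : Tendsto (fun w : ℂ => 2 * w) (𝓝 (z / 2)) (𝓝 (2 * (z / 2))) := (continuous_const.mul continuous_id).tendsto _
      rwa [mul_div_cancel₀ z (two_ne_zero)] at this
    filter_upwards [h2.eventually hw, hopen.mem_nhds (hhalf z hz)] with w hw1 hw2
    have e1 : F₁ (2 * w) = F w := by
      rw [hF₁]
      simp only
      rw [mul_div_cancel_left₀ w (two_ne_zero)]
    rw [e1] at hw1
    obtain ⟨h5, h6⟩ := hFf w hw2
    exact (hliftB w (F w) h5 h6).mpr hw1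
  -- a point with positive metric
  have hz0 : (1 / 2 : ℂ) ∈ ball (0 : ℂ) 1 \ {0} := by
    refine ⟨?_, by simp⟩
    rw [mem_ball_zero_iff]
    norm_num
  have hpos := exists_pos hM (han1 _ hz0) (Filter.mem_of_superset (hopen1.mem_nhds hz0) fun z hz => hF1c.2 z hz)
    (hnB _ hz0) (hc _ hz0)
  obtain ⟨z₁, hz₁pos, hz₁⟩ := (hpos.and (hopen1.mem_nhds hz0 |> Filter.Eventually.filter_mono nhdsWithin_le_nhds)).exists
  have hz₁1 : ‖z₁‖ < 1 := by simpa using hz₁.1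
  have hz₁0 : 0 < ‖z₁‖ := norm_pos_iff.mpr hz₁.2
  obtain ⟨L, hL, hLb⟩ := hbound
  have hgr : ∀ z : ℂ, z ≠ 0 → ‖z‖ < 1 → mt G F₁ z * (‖z‖ * Real.log (1 / ‖z‖)) ≤ L := fun z hz hz1 => growth hM hLb hF1c hz hz1
  obtain ⟨c, hcpos, hlift⟩ := bounded_lifts hM hL hF1c hgr (r₁ := (‖z₁‖ + 1) / 2) hz₁0 (by linarith) (by linarith) hz₁pos
  obtain ⟨Q, hQa, hQ0, hQ⟩ := puncture_limit hF1c.1 (fun z hz => hM.ne _ (hF1c.2 z hz)) hcpos hz₁0 (r₁ := (‖z₁‖ + 1) / 2)
    (by linarith) (by linarith) hlift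
  -- gluing
  set q₀ : PN N := Projectivization.mk ℂ (Q 0).ofLp (ofLp_ne_zero hQ0) with hq₀
  refine ⟨fun z => if z = 0 then q₀ else f z, ?_, ?_⟩
  · intro z hz
    by_cases hz0 : z = 0
    · subst hz0
      refine ⟨fun w => (Q (2 * w)).ofLp, ?_, ?_⟩
      · apply analyticAt_ofLp
        have h1 : AnalyticAt ℂ Q ((fun w : ℂ => 2 * w) 0) := by simpa using hQa
        exact h1.comp (analyticAt_const.mul analyticAt_id)
      · have h2 : Tendsto (fun w : ℂ => 2 * w) (𝓝 0) (𝓝 0) := by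
          have : Tendsto (fun w : ℂ => 2 * w) (𝓝 0) (𝓝 (2 * 0)) := (continuous_const.mul continuous_id).tendsto _
          rwa [mul_zero] at this
        have h3 : ∀ᶠ w in 𝓝 (0 : ℂ), w ≠ 0 → ∃ k : ℂ, k ≠ 0 ∧ Q (2 * w) = k • F₁ (2 * w) := by
          filter_upwards [h2.eventually (eventually_nhdsWithin_iff.mp hQ)] with w hw hw0
          exact hw (by simpa using hw0)
        have h4 : ∀ᶠ w in 𝓝 (0 : ℂ), Q (2 * w) ≠ 0 := by
          have h5 : ∀ᶠ y in 𝓝 (0 : ℂ), Q y ≠ 0 := hQa.continuousAt.eventually_ne hQ0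
          exact h2.eventually h5
        filter_upwards [h3, h4, ball_mem_nhds (0 : ℂ) (show (0 : ℝ) < 1 / 2 by norm_num)] with w hw1 hw2 hw3
        refine ⟨ofLp_ne_zero hw2, ?_⟩
        by_cases hw0 : w = 0
        · subst hw0
          simp only [if_true, hq₀, mul_zero]
        · rw [if_neg hw0]
          obtain ⟨k, hk0, hk⟩ := hw1 hw0
          have e1 : F₁ (2 * w) = F w := by
            rw [hF₁]
            simp only
            rw [mul_div_cancel_left₀ w (two_ne_zero)]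
          rw [e1] at hk
          obtain ⟨h5, h6⟩ := hFf w ⟨hw3, hw0⟩
          rw [h6, Projectivization.mk_eq_mk_iff']
          refine ⟨k⁻¹, ?_⟩
          rw [hk]
          show k⁻¹ • (k • (F w).ofLp) = _
          rw [smul_smul, inv_mul_cancel₀ hk0, one_smul]
    · obtain ⟨φ, hφ, he⟩ := hf z ⟨hz, hz0⟩
      refine ⟨φ, hφ, ?_⟩
      filter_upwards [he, isOpen_ne.mem_nhds hz0] with w hw1 hw2
      rw [if_neg hw2]
      exact hw1
  · intro z hz
    have hz0 : z ≠ 0 := hz.2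
    simp only
    rw [if_neg hz0]

/-- Kobayashi hyperbolicity modulo the exceptional set: all lifts of all discs -/
theorem kobayashi_of_bound {X Z : Set (PN N)} (hM : MD (coneOf X) (coneOf Z) G ρ M c₀ C)
    (hbound : ∃ L : ℝ, 0 < L ∧ ∀ F, Curve (coneOf X) (ball 0 1) F → mt G F 0 ≤ L) :
    ∃ L : ℝ, 0 < L ∧ ∀ (f : ℂ → PN N) (F : ℂ → EN N), HolomorphicInto f (ball 0 1) → (∀ z ∈ ball (0 : ℂ) 1, f z ∈ X) →
      AnalyticAt ℂ F 0 → (∀ᶠ z in 𝓝 (0 : ℂ), ∃ h : (F z).ofLp ≠ 0, f z = Projectivization.mk ℂ _ h) →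
      ρ (F 0) ^ M * fs (F 0) (deriv F 0) ≤ L := by
  obtain ⟨L, hL, hLb⟩ := hbound
  refine ⟨2 * L, by positivity, fun f F hf hfX hF hFf => ?_⟩
  obtain ⟨F₁, hF1d, hF1f⟩ := lift_disc hf (r := 1 / 2) (by norm_num) (by norm_num)
  have h0mem : (0 : ℂ) ∈ ball (0 : ℂ) (1 / 2) := mem_ball_self (by norm_num)
  have hF10 : F₁ 0 ≠ 0 := ne_zero_of_ofLp (hF1f 0 h0mem).choose
  have hF1a : AnalyticAt ℂ F₁ 0 := hF1d.analyticAt (isOpen_ball.mem_nhds h0mem)
  have hF1K : ∀ z ∈ ball (0 : ℂ) (1 / 2), F₁ z ∈ coneOf X := by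
    intro z hz
    obtain ⟨h1, h2⟩ := hF1f z hz
    exact ⟨h1, by rw [← h2]; exact hfX z (ball_subset_ball (by norm_num) hz)⟩
  -- the scaled curve
  have hcur : Curve (coneOf X) (ball 0 1) (fun z => F₁ (z / 2)) := by
    have hh : ∀ z ∈ ball (0 : ℂ) 1, z / 2 ∈ ball (0 : ℂ) (1 / 2) := by
      intro z hz
      rw [mem_ball_zero_iff] at hz ⊢
      rw [norm_div]
      simp only [Complex.norm_ofNat]
      linarith
    refine ⟨fun z hz => ?_, fun z hz => hF1K _ (hh z hz)⟩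
    have h1 : DifferentiableAt ℂ F₁ (z / 2) := hF1d.differentiableAt (isOpen_ball.mem_nhds (hh z hz))
    exact (h1.comp z (differentiableAt_id.div_const 2)).differentiableWithinAt
  have hb := hLb _ hcur
  have hdz : HasDerivAt (fun z : ℂ => z / 2) (1 / 2) 0 := by simpa using (hasDerivAt_id (0 : ℂ)).div_const 2
  have e1 : mt G (fun z => F₁ (z / 2)) 0 = ‖deriv (fun z : ℂ => z / 2) 0‖ * mt G F₁ ((fun z : ℂ => z / 2) 0) := by
    refine mt_comp hM (φ := fun z : ℂ => z / 2) ?_ hdz.differentiableAt ?_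
    · simpa using hF1a.differentiableAt
    · simpa using hF1K 0 h0mem
  rw [hdz.deriv] at e1
  simp only [zero_div] at e1
  have hn : ‖(1 / 2 : ℂ)‖ = 1 / 2 := by norm_num
  rw [hn] at e1
  rw [e1] at hb
  -- comparison of the lifts
  obtain ⟨j, hj⟩ : ∃ j, (F₁ 0) j ≠ 0 := by
    by_contra hcon
    push Not at hcon
    exact hF10 (by ext i; exact hcon i)
  have hc1 : AnalyticAt ℂ (fun w => F₁ w j) 0 := analyticAt_pi_iff.mp (analyticAt_ofLp hF1a) j
  have hc2 : AnalyticAt ℂ (fun w => F w j) 0 := analyticAt_pi_iff.mp (analyticAt_ofLp hF) j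
  set k : ℂ → ℂ := fun w => F w j / F₁ w j with hk
  have hka : AnalyticAt ℂ k 0 := hc2.div hc1 hj
  have hrel : ∀ᶠ w in 𝓝 (0 : ℂ), F w = k w • F₁ w ∧ k w ≠ 0 := by
    filter_upwards [hFf, isOpen_ball.mem_nhds h0mem, hc1.continuousAt.eventually_ne hj] with w h1 h2 h3
    obtain ⟨h4, h5⟩ := h1
    obtain ⟨h6, h7⟩ := hF1f w h2
    rw [h5, Projectivization.mk_eq_mk_iff'] at h7
    obtain ⟨a, ha⟩ := h7
    have ha' : ∀ i, a * F₁ w i = F w i := fun i => congrFun ha i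
    have hka' : k w = a := by
      rw [hk]
      simp only
      rw [← ha' j]
      field_simp
    refine ⟨?_, ?_⟩
    · rw [hka']
      ext i
      exact (ha' i).symm
    · rw [hka']
      rintro rfl
      apply h4
      funext i
      rw [← ha' i, zero_mul]
      rfl
  have hF0 : F 0 ∈ coneOf X := by
    obtain ⟨h1, h2⟩ := hFf.self_of_nhds
    exact ⟨h1, by rw [← h2]; exact hfX 0 (mem_ball_self one_pos)⟩
  have e2 : mt G F 0 = mt G (fun w => k w • F₁ w) 0 := by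
    have h1 : F =ᶠ[𝓝 0] fun w => k w • F₁ w := by
      filter_upwards [hrel] with w hw
      exact hw.1
    unfold mt
    rw [h1.deriv_eq, h1.self_of_nhds]
  rw [mt_smul hM hF1a.differentiableAt hka.differentiableAt (hF1K 0 h0mem) hrel.self_of_nhds.2] at e2
  have hlow := hM.lower (F 0) hF0 (deriv F 0)
  have : mt G F 0 ≤ 2 * L := by rw [e2]; linarith
  exact hlow.trans this

end Pool.Agent.H36.BPB
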