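import Pool.Agent.H36.BP.WdA
import Pool.Agent.H36.BPB.Defs

/-!
# BPB (port) MtA: the metric along a curve

* `mt_usc`: `F` and `deriv F` are continuous near `z`, `usc`.
* `mt_smul`: for `k` holomorphic without zeros at `z`: `(k F)' = k F' + k' F`, `inv`.
* `mt_comp`: `(F ∘ φ)' = φ' F' ∘ φ`, `hom`.
* `mt_limit`: `F n → H` locally uniformly on a neighbourhood of `0`, then `F n 0 → H 0`, `(F n)' 0 → H' 0` (`TendstoLocallyUniformlyOn.deriv`), `usc` at `(H 0, H' 0)`.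
-/

set_option autoImplicit false

namespace Pool.Agent.H36.BPB

open Filter Topology Metric
open Pool.Agent.H36.BP

variable {N : ℕ}

variable {K B : Set (EN N)} {G : EN N → EN N → ℝ} {ρ : EN N → ℝ} {M : ℕ} {c₀ C : ℝ}

theorem mt_usc (hM : MD K B G ρ M c₀ C) {U : Set ℂ} (hU : IsOpen U) {F : ℂ → EN N} (hF : Curve K U F) :
    UpperSemicontinuousOn (mt G F) U := by
  intro z hz y hy
  have hA : AnalyticAt ℂ F z := hF.1.analyticAt (hU.mem_nhds hz)
  have hc : ContinuousAt (fun w => (F w, deriv F w)) z := hA.continuousAt.prodMk hA.deriv.continuousAt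
  have h1 := hM.usc (F z) (hF.2 z hz) (deriv F z) y hy
  have h2 := hc.eventually h1
  filter_upwards [nhdsWithin_le_nhds h2, self_mem_nhdsWithin] with w hw hwU
  exact hw (hF.2 w hwU)

theorem mt_nonneg (hM : MD K B G ρ M c₀ C) {F : ℂ → EN N} {z : ℂ} (hz : F z ∈ K) : 0 ≤ mt G F z := by
  exact hM.nonneg _ hz _

theorem mt_smul (hM : MD K B G ρ M c₀ C) {F : ℂ → EN N} {k : ℂ → ℂ} {z : ℂ} (hF : DifferentiableAt ℂ F z)
    (hk : DifferentiableAt ℂ k z) (hz : F z ∈ K) (h0 : k z ≠ 0) : mt G (fun z => k z • F z) z = mt G F z := by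
  have h : deriv (fun z => k z • F z) z = k z • deriv F z + deriv k z • F z := by
    have := (hk.hasDerivAt.smul hF.hasDerivAt).deriv
    exact this
  unfold mt
  rw [h]
  exact hM.inv (F z) hz (deriv F z) (k z) (deriv k z) h0

theorem mt_comp (hM : MD K B G ρ M c₀ C) {F : ℂ → EN N} {φ : ℂ → ℂ} {z : ℂ} (hF : DifferentiableAt ℂ F (φ z))
    (hφ : DifferentiableAt ℂ φ z) (hz : F (φ z) ∈ K) : mt G (fun z => F (φ z)) z = ‖deriv φ z‖ * mt G F (φ z) := by
  have h : deriv (fun z => F (φ z)) z = deriv φ z • deriv F (φ z) := by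
    have := (HasDerivAt.scomp z hF.hasDerivAt hφ.hasDerivAt).deriv
    exact this
  unfold mt
  rw [h]
  exact hM.hom (F (φ z)) hz (deriv F (φ z)) (deriv φ z)

theorem mt_limit (hM : MD K B G ρ M c₀ C) {κ : Type} {l : Filter κ} [l.NeBot] {F : κ → ℂ → EN N} {H : ℂ → EN N} {s : ℝ} (hs : 0 < s)
    (hF : ∀ᶠ n in l, Curve K (ball 0 s) (F n)) (hH : TendstoLocallyUniformlyOn F H l (ball 0 s)) (h0 : H 0 ∈ K) {a : ℝ}
    (ha : ∀ᶠ n in l, a ≤ mt G (F n) 0) : a ≤ mt G H 0 := by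
  by_contra hlt
  rw [not_le] at hlt
  have hmem : (0 : ℂ) ∈ ball (0 : ℂ) s := mem_ball_self hs
  have h1 : Tendsto (fun n => F n 0) l (𝓝 (H 0)) := hH.tendsto_at hmem
  have hd : TendstoLocallyUniformlyOn (deriv ∘ F) (deriv H) l (ball 0 s) :=
    hH.deriv (hF.mono fun n hn => hn.1) isOpen_ball
  have h2 : Tendsto (fun n => deriv (F n) 0) l (𝓝 (deriv H 0)) := hd.tendsto_at hmem
  have h3 : Tendsto (fun n => (F n 0, deriv (F n) 0)) l (𝓝 (H 0, deriv H 0)) := h1.prodMk_nhds h2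
  have h4 := h3.eventually (hM.usc (H 0) h0 (deriv H 0) a hlt)
  obtain ⟨n, hn1, hn2, hn3⟩ := (h4.and (hF.and ha)).exists
  have h5 : G (F n 0) (deriv (F n) 0) < a := hn1 (hn2.2 0 hmem)
  exact absurd hn3 (not_le.mpr h5)

theorem mt_const (hM : MD K B G ρ M c₀ C) {F : ℂ → EN N} {z : ℂ} (hz : F z ∈ K) {a : ℂ} (h : deriv F z = a • F z) : mt G F z = 0 := by
  have h1 : G (F z) 0 = 0 := by
    have := hM.hom (F z) hz 0 0
    simpa using this
  have h2 := hM.inv (F z) hz 0 1 a one_ne_zero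
  rw [smul_zero, zero_add, one_smul, h1] at h2
  unfold mt
  rw [h, h2]

end Pool.Agent.H36.BPB
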