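import Pool.Agent.H36.BPB.MtA

/-!
# BPB (port) Resc: rescaling

Given `L = 4 (n + 1)` take `F` with `mt G F 0 > L`.  On `closedBall 0 (1/2)` the function `mt G F z (1/2 - |z|)` is upper semicontinuous, so it has a maximum `m ≥ mt G F 0/2 > 0`
at some `z₀`, `|z₀| < 1/2`.  `λ = 1/mt G F z₀`, `F_n ζ = F (z₀ + λ ζ)`.  For `|ζ| ≤ m/2`: `|z| ≤ |z₀| + (1/2 - |z₀|)/2`, so `1/2 - |z| ≥ (1/2 - |z₀|)/2 > 0` and
`mt G F z ≤ m/(1/2 - |z|) ≤ 2 mt G F z₀`; `mt_comp`.  `m/2 ≥ L/4 = n + 1`.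
-/

set_option autoImplicit false

namespace Pool.Agent.H36.BPB

open Filter Topology Metric
open Pool.Agent.H36.BP

variable {N : ℕ}

variable {K B : Set (EN N)} {G : EN N → EN N → ℝ} {ρ : EN N → ℝ} {M : ℕ} {c₀ C : ℝ}

/-- product of a nonnegative upper semicontinuous function and a nonnegative continuous function -/
private theorem resc_usc_mul {α : Type*} [TopologicalSpace α] {S : Set α} {u k : α → ℝ} (hu : UpperSemicontinuousOn u S)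
    (hk : ContinuousOn k S) (hu0 : ∀ x ∈ S, 0 ≤ u x) (hk0 : ∀ x ∈ S, 0 ≤ k x) :
    UpperSemicontinuousOn (fun x => u x * k x) S := by
  intro x hx y hy
  have ht : Tendsto (fun ε : ℝ => (u x + ε) * (k x + ε)) (𝓝[>] 0) (𝓝 ((u x + 0) * (k x + 0))) := by
    apply tendsto_nhdsWithin_of_tendsto_nhds
    have hc : Continuous (fun ε : ℝ => (u x + ε) * (k x + ε)) := by fun_prop
    exact hc.tendsto 0
  have hy' : (u x + 0) * (k x + 0) < y := by simpa using hy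
  obtain ⟨ε, hε1, hε2⟩ := ((ht.eventually_lt_const hy').and self_mem_nhdsWithin).exists
  have hε : (0 : ℝ) < ε := hε2
  have h1 : ∀ᶠ x' in 𝓝[S] x, u x' < u x + ε := hu x hx _ (by linarith)
  have h2 : ∀ᶠ x' in 𝓝[S] x, k x' < k x + ε := (hk x hx).eventually_lt_const (by linarith)
  filter_upwards [h1, h2, self_mem_nhdsWithin] with x' h1' h2' hx'
  refine lt_of_le_of_lt ?_ hε1
  exact mul_le_mul h1'.le h2'.le (hk0 x' hx') (by linarith [hu0 x hx])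

theorem rescale (hM : MD K B G ρ M c₀ C) (hunb : ∀ L : ℝ, ∃ F, Curve K (ball 0 1) F ∧ L < mt G F 0) (n : ℕ) :
    ∃ F, Curve K (ball 0 (n + 1)) F ∧ mt G F 0 = 1 ∧ ∀ z ∈ ball (0 : ℂ) (n + 1), mt G F z ≤ 2 := by
  obtain ⟨F, hF, hL⟩ := hunb (4 * ((n : ℝ) + 1))
  have hn : (0 : ℝ) ≤ n := Nat.cast_nonneg n
  set u : ℂ → ℝ := fun z => mt G F z * (1 / 2 - ‖z‖) with hu
  have hsub : closedBall (0 : ℂ) (1 / 2) ⊆ ball 0 1 := closedBall_subset_ball (by norm_num)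
  have husc : UpperSemicontinuousOn u (closedBall (0 : ℂ) (1 / 2)) := by
    refine resc_usc_mul ((mt_usc hM isOpen_ball hF).mono hsub) (by fun_prop) ?_ ?_
    · intro x hx
      exact mt_nonneg hM (hF.2 x (hsub hx))
    · intro x hx
      have : ‖x‖ ≤ 1 / 2 := by simpa using hx
      linarith
  obtain ⟨z₀, hz₀, hmax⟩ := husc.exists_isMaxOn ⟨0, by simp⟩ (isCompact_closedBall _ _)
  have hz₀n : ‖z₀‖ ≤ 1 / 2 := by simpa using hz₀
  have h0 : u 0 ≤ u z₀ := hmax (by simp : (0 : ℂ) ∈ closedBall (0 : ℂ) (1 / 2))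
  have hu0 : u 0 = mt G F 0 / 2 := by simp only [hu, norm_zero]; ring
  have hm : 2 * ((n : ℝ) + 1) < u z₀ := by rw [hu0] at h0; linarith
  have hz₀K : F z₀ ∈ K := hF.2 z₀ (hsub hz₀)
  have hmt0 : 0 ≤ mt G F z₀ := mt_nonneg hM hz₀K
  set d : ℝ := 1 / 2 - ‖z₀‖ with hd
  have hd0 : 0 ≤ d := by rw [hd]; linarith
  have huz : u z₀ = mt G F z₀ * d := rfl
  have hpos : 0 < mt G F z₀ * d := by rw [← huz]; linarith
  have hmtpos : 0 < mt G F z₀ := by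
    rcases hmt0.lt_or_eq with h | h
    · exact h
    · rw [← h] at hpos; simp at hpos
  have hdpos : 0 < d := by
    rcases hd0.lt_or_eq with h | h
    · exact h
    · rw [← h] at hpos; simp at hpos
  set a : ℝ := mt G F z₀ with ha
  set φ : ℂ → ℂ := fun ζ => z₀ + ((a⁻¹ : ℝ) : ℂ) * ζ with hφ
  have hφd : ∀ ζ, HasDerivAt φ ((a⁻¹ : ℝ) : ℂ) ζ := by
    intro ζ
    have := ((hasDerivAt_id ζ).const_mul ((a⁻¹ : ℝ) : ℂ)).const_add z₀
    simpa [hφ] using this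
  have hkey : ∀ ζ ∈ ball (0 : ℂ) (n + 1), ‖φ ζ‖ ≤ 1 / 2 - d / 2 := by
    intro ζ hζ
    have hζn : ‖ζ‖ < n + 1 := by simpa using hζ
    have h1 : ‖φ ζ‖ ≤ ‖z₀‖ + a⁻¹ * ‖ζ‖ := by
      calc ‖φ ζ‖ ≤ ‖z₀‖ + ‖((a⁻¹ : ℝ) : ℂ) * ζ‖ := norm_add_le _ _
        _ = ‖z₀‖ + a⁻¹ * ‖ζ‖ := by
          rw [norm_mul, Complex.norm_real, Real.norm_of_nonneg (by positivity)]
    have h2 : a⁻¹ * ‖ζ‖ ≤ d / 2 := by
      rw [inv_mul_le_iff₀ hmtpos]
      rw [huz] at hm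
      linarith
    have h3 : ‖z₀‖ = 1 / 2 - d := by rw [hd]; ring
    linarith
  have hball : ∀ ζ ∈ ball (0 : ℂ) (n + 1), φ ζ ∈ closedBall (0 : ℂ) (1 / 2) := by
    intro ζ hζ
    have := hkey ζ hζ
    rw [mem_closedBall_zero_iff]
    linarith
  have hdiff : ∀ ζ ∈ ball (0 : ℂ) (n + 1), DifferentiableAt ℂ F (φ ζ) := fun ζ hζ =>
    (hF.1 _ (hsub (hball ζ hζ))).differentiableAt (isOpen_ball.mem_nhds (hsub (hball ζ hζ)))
  have hmt : ∀ ζ ∈ ball (0 : ℂ) (n + 1), mt G (fun ζ => F (φ ζ)) ζ = a⁻¹ * mt G F (φ ζ) := by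
    intro ζ hζ
    rw [mt_comp hM (hdiff ζ hζ) (hφd ζ).differentiableAt (hF.2 _ (hsub (hball ζ hζ))), (hφd ζ).deriv,
      Complex.norm_real, Real.norm_of_nonneg (by positivity)]
  refine ⟨fun ζ => F (φ ζ), ⟨?_, ?_⟩, ?_, ?_⟩
  · intro ζ hζ
    exact ((hdiff ζ hζ).comp ζ (hφd ζ).differentiableAt).differentiableWithinAt
  · intro ζ hζ
    exact hF.2 _ (hsub (hball ζ hζ))
  · rw [hmt 0 (mem_ball_self (by positivity))]
    have : φ 0 = z₀ := by simp [hφ]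
    rw [this, ← ha]
    exact inv_mul_cancel₀ hmtpos.ne'
  · intro ζ hζ
    rw [hmt ζ hζ]
    have h1 : u (φ ζ) ≤ u z₀ := hmax (hball ζ hζ)
    have h2 := hkey ζ hζ
    have h3 : mt G F (φ ζ) * (1 / 2 - ‖φ ζ‖) ≤ a * d := h1
    have h4 : 0 ≤ mt G F (φ ζ) := mt_nonneg hM (hF.2 _ (hsub (hball ζ hζ)))
    have h5 : mt G F (φ ζ) * (d / 2) ≤ a * d :=
      le_trans (mul_le_mul_of_nonneg_left (by linarith) h4) h3
    have h6 : mt G F (φ ζ) ≤ 2 * a := by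
      by_contra hc
      push Not at hc
      have : 2 * a * (d / 2) < mt G F (φ ζ) * (d / 2) := mul_lt_mul_of_pos_right hc (by linarith)
      linarith
    rw [inv_mul_le_iff₀ hmtpos]
    linarith

end Pool.Agent.H36.BPB
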